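import Pool.Agent.H.MP_353193_lc.SM.Df

/-!
# LsA: the relation `Lose`

* `Lose.up`: by `lose_iff` (a node above `w` is above `v`).
* `Lose.mono_rank`: by `lose_iff`.
* `not_lose`: by contradiction: for every `m > j` and `u ∈ T m` above `v` with `Dn X m u` there are `u' ∈ T m` above `u` and `ξ` with
  `Lose X ξ (j + 1) u'`. Choose `ξ = r m u`; the supremum of all `r m u + 1` (a family of ordinals of `Ordinal.{1}` indexed by `ℕ × Nod : Type 1`,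
  `Ordinal.lt_iSup_iff`, `Ordinal.le_iSup`) is a rank for `v`.
-/

set_option autoImplicit false

open Cardinal Ordinal Set

namespace Pool.Agent.H.MP_353193_lc.SM

theorem Lose.up {X : Set Seq} {ξ : Ordinal.{1}} {j : ℕ} {v w : Nod} (h : Lose X ξ j v) (hvw : Le v w) :
    Lose X ξ j w := by
  rw [lose_iff] at h ⊢
  intro m hm u hu hwu hD
  exact h m hm u hu (hvw.trans hwu) hD

theorem not_lose {X : Set Seq} {j : ℕ} {v : Nod} (h : ∀ ξ, ¬ Lose X ξ j v) :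
    ∃ m, j < m ∧ ∃ u ∈ T m, Le v u ∧ Dn X m u ∧
      ∀ u' ∈ T m, Le u u' → ∀ ξ, ¬ Lose X ξ (j + 1) u' := by
  classical
  by_contra hcon
  have hex : ∀ (m : ℕ) (u : Nod), j < m → u ∈ T m → Le v u → Dn X m u →
      ∃ ξ : Ordinal.{1}, ∃ u' ∈ T m, Le u u' ∧ Lose X ξ (j + 1) u' := by
    intro m u hm hu hvu hD
    by_contra hno
    refine hcon ⟨m, hm, u, hu, hvu, hD, fun u' hu' huu' ξ hL => ?_⟩
    exact hno ⟨ξ, u', hu', huu', hL⟩
  have hch : ∀ p : ℕ × Nod, ∃ ξ : Ordinal.{1}, j < p.1 → p.2 ∈ T p.1 → Le v p.2 → Dn X p.1 p.2 →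
      ∃ u' ∈ T p.1, Le p.2 u' ∧ Lose X ξ (j + 1) u' := by
    intro p
    by_cases h1 : ∃ ξ : Ordinal.{1}, ∃ u' ∈ T p.1, Le p.2 u' ∧ Lose X ξ (j + 1) u'
    · obtain ⟨ξ, h2⟩ := h1
      exact ⟨ξ, fun _ _ _ _ => h2⟩
    · exact ⟨0, fun h2 h3 h4 h5 => absurd (hex p.1 p.2 h2 h3 h4 h5) h1⟩
  choose r hr' using hch
  have hr : ∀ (m : ℕ) (u : Nod), j < m → u ∈ T m → Le v u →
      Dn X m u → ∃ u' ∈ T m, Le u u' ∧ Lose X (r (m, u)) (j + 1) u' := fun m u => hr' (m, u)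
  refine h (⨆ p : ℕ × Nod, (r p + 1)) ?_
  rw [lose_iff]
  intro m hm u hu hvu hD
  obtain ⟨u', hu', huu', hL⟩ := hr m u hm hu hvu hD
  refine ⟨r (m, u), ?_, u', hu', huu', hL⟩
  exact (Order.lt_add_one_iff.2 le_rfl).trans_le (Ordinal.le_iSup (fun p => r p + 1) (m, u))

end Pool.Agent.H.MP_353193_lc.SM
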