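import Pool.Agent.H.MP_353193_lc.SM.Pr
import Pool.Agent.H.MP_353193_lc.SM.LsA

/-!
# Win: a node without rank gives a copy

By `not_lose` choose for every round `j` and node `w` without rank in round `j` numbers `m j w > j` and `u j w ∈ T (m j w)` above `w`. For `x ∈ R omω` define
nodes `w x 0 = v`, `w x (j + 1) = cat (u j (w x j)) x (om j) true`; none of them has a rank (`cat_le`, `cat_mem_T`). `w x k` depends only on the
digits of `x` below `om i`, `i < k` (`cat_congr`). Put `j = lv x` and let `φ x` be a point of `X ∩ R omω` in the cone of `cat (u j (w x j)) x (om j) false` (it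
exists by `Dn`). For `k ≤ lv x`: `φ x ∈ cn (cat (u k (w x k)) x (om k) (decide (k < lv x)))`, as the later nodes are above. `pair`, `cat_sep`: `φ` is
strictly increasing.
-/

set_option autoImplicit false

open Cardinal Ordinal Set

namespace Pool.Agent.H.MP_353193_lc.SM

/-- the conditions on the move of the builder -/
private def WinP (X : Set Seq) (j : ℕ) (w : Nod) (m : ℕ) (u : Nod) : Prop :=
  j < m ∧ u ∈ T m ∧ Le w u ∧ Dn X m u ∧ ∀ u' ∈ T m, Le u u' → ∀ ξ, ¬ Lose X ξ (j + 1) u'

/-- the nodes of the branch of `x` -/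
private noncomputable def WinW (U : ℕ → Nod → Nod) (v : Nod) (x : Seq) : ℕ → Nod
  | 0 => v
  | j + 1 => cat (U j (WinW U v x j)) x (om j) true

private theorem WinW_congr (U : ℕ → Nod → Nod) (v : Nod) {x y : Seq} :
    ∀ k : ℕ, (∀ i, i < k → ∀ μ, μ < om i → x μ = y μ) → WinW U v x k = WinW U v y k := by
  intro k
  induction k with
  | zero => intro _; rfl
  | succ k ih =>
    intro h
    show cat (U k (WinW U v x k)) x (om k) true = cat (U k (WinW U v y k)) y (om k) true
    rw [ih fun i hi => h i (hi.trans (Nat.lt_succ_self k))]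
    exact cat_congr _ (h k (Nat.lt_succ_self k)) true

theorem win_copy {X : Set Seq} {v : Nod} (h : ∀ ξ, ¬ Lose X ξ 0 v) : Lg X := by
  classical
  have hc : ∀ (j : ℕ) (w : Nod), ∃ (m : ℕ) (u : Nod), (∀ ξ, ¬ Lose X ξ j w) → WinP X j w m u := by
    intro j w
    by_cases hw : ∀ ξ, ¬ Lose X ξ j w
    · obtain ⟨m, hm, u, hu, h1, h2, h3⟩ := not_lose hw
      exact ⟨m, u, fun _ => ⟨hm, hu, h1, h2, h3⟩⟩
    · exact ⟨0, w, fun h1 => absurd h1 hw⟩
  choose M U hU using hc
  have hW : ∀ x : Seq, ∀ j : ℕ, ∀ ξ, ¬ Lose X ξ j (WinW U v x j) := by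
    intro x j
    induction j with
    | zero => exact h
    | succ j ih =>
      obtain ⟨h1, h2, h3, h4, h5⟩ := hU j (WinW U v x j) ih
      exact h5 _ (cat_mem_T h1 h2 x true) (cat_le _ x (om j) true)
  have hP : ∀ x : Seq, ∀ j : ℕ, WinP X j (WinW U v x j) (M j (WinW U v x j)) (U j (WinW U v x j)) :=
    fun x j => hU j _ (hW x j)
  have hex : ∀ x : Seq, ∃ y ∈ R omω, y ∈ X ∧
      y ∈ cn (cat (U (lv x) (WinW U v x (lv x))) x (om (lv x)) false) := by
    intro x
    obtain ⟨h1, h2, h3, h4, h5⟩ := hP x (lv x)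
    exact h4 _ (cat_le _ x (om (lv x)) false) (cat_mem_T h1 h2 x false)
  choose φ hφ1 hφ2 hφ3 using hex
  have hmono : ∀ x : Seq, ∀ i j : ℕ, i ≤ j → Le (WinW U v x i) (WinW U v x j) := by
    intro x i j hij
    induction j, hij using Nat.le_induction with
    | base => exact Le.refl _
    | succ j _ ih =>
      exact ih.trans ((hP x j).2.2.1.trans (cat_le _ x (om j) true))
  have hA : ∀ x : Seq, ∀ k : ℕ, k ≤ lv x →
      φ x ∈ cn (cat (U k (WinW U v x k)) x (om k) (decide (k < lv x))) := by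
    intro x k hk
    rcases hk.eq_or_lt with h1 | h1
    · rw [h1]
      have h2 : decide (lv x < lv x) = false := by simp
      rw [h2]
      exact hφ3 x
    · have h2 : decide (k < lv x) = true := by simpa using h1
      rw [h2]
      have h3 : Le (WinW U v x (k + 1)) (WinW U v x (lv x)) := hmono x (k + 1) (lv x) h1
      have h4 : Le (WinW U v x (lv x)) (cat (U (lv x) (WinW U v x (lv x))) x (om (lv x)) false) :=
        (hP x (lv x)).2.2.1.trans (cat_le _ x (om (lv x)) false)
      exact (h3.trans h4).cn_subset (hφ3 x)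
  refine ⟨φ, fun f _ => ⟨hφ1 f, hφ2 f⟩, ?_⟩
  intro x hx y hy hxy
  obtain ⟨k, hkx, hky, h1, h2⟩ := pair hx hy hxy
  have h3 : WinW U v x k = WinW U v y k := WinW_congr U v k h1
  have h4 := hA x k hkx
  have h5 := hA y k hky
  rw [h3] at h4
  exact cat_sep h2 _ h4 h5

end Pool.Agent.H.MP_353193_lc.SM
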