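import Pool.Agent.H.MP_353193_lc.SM.Sw
import Pool.Agent.H.MP_353193_lc.SM.Win

/-!
# Inc: the increasing union lemma

* `bounded_copy`: `some_win` with `B α = {y | a y ≤ α}` and `win_copy`.
* `bdd_small`: a set of at most `aleph n` ordinals below `om (n + 1)` is bounded below `om (n + 1)` (regularity; `I` is a small set:
  the cardinality of `I` in `Type 1` is the lift of a cardinal in `Type 0`).
-/

set_option autoImplicit false

open Cardinal Ordinal Set

namespace Pool.Agent.H.MP_353193_lc.SM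

theorem bounded_copy (n : ℕ) (a : Seq → Ordinal.{0}) (ha : ∀ y ∈ R omω, a y < om (n + 1)) :
    ∃ β, β < om (n + 1) ∧ Lg {y | a y ≤ β} := by
  obtain ⟨α, h1, v, h2⟩ := some_win n (fun α => {y | a y ≤ α})
    (fun α β hαβ y hy => le_trans hy hαβ) (fun y hy => ⟨a y, ha y hy, le_refl (a y)⟩)
  exact ⟨α, h1, win_copy h2⟩

theorem bdd_small (n : ℕ) (I : Set Ordinal.{0}) (h1 : ∀ i ∈ I, i < om (n + 1))
    (h2 : #I ≤ Cardinal.aleph (n : Ordinal.{1})) : ∃ β, β < om (n + 1) ∧ ∀ i ∈ I, i ≤ β := by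
  haveI hs : Small.{0} I := small_subset (show I ⊆ Iio (om (n + 1)) from h1)
  have hcard : #(Shrink.{0} I) ≤ Cardinal.aleph (n : Ordinal.{0}) := by
    rw [← Cardinal.lift_le.{1}, Cardinal.lift_aleph]
    have h3 : Cardinal.lift.{1} #(Shrink.{0} I) = #I := by
      have := Cardinal.lift_mk_shrink'.{1, 0} I
      simpa using this
    rw [h3]
    simpa using h2
  have hreg : Cardinal.IsRegular (Cardinal.aleph ((n : Ordinal.{0}) + 1)) :=
    Cardinal.isRegular_aleph_add_one _
  have hom : om (n + 1) = (Cardinal.aleph ((n : Ordinal.{0}) + 1)).ord := by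
    unfold om
    push_cast
    rfl
  have hcof : #(Shrink.{0} I) < (om (n + 1)).cof := by
    rw [hom, hreg.cof_ord]
    exact hcard.trans_lt (Cardinal.aleph_lt_aleph.2 (lt_add_of_pos_right _ zero_lt_one))
  refine ⟨⨆ i : Shrink.{0} I, ((equivShrink I).symm i : Ordinal.{0}),
    Ordinal.iSup_lt_of_lt_cof hcof fun i => h1 _ ((equivShrink I).symm i).2, fun i hi => ?_⟩
  have h4 := Ordinal.le_iSup (fun i : Shrink.{0} I => ((equivShrink I).symm i : Ordinal.{0}))
    (equivShrink I ⟨i, hi⟩)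
  simpa using h4

end Pool.Agent.H.MP_353193_lc.SM
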