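import Pool.Agent.H.MP_353193_lc.SM.Om

/-!
# Chn: chains of nodes of length `om (n + 1)`, or of length `om (n + 1) + 1`

* `chain`: define `v` by well-founded recursion, `v j = ub j (fun i (h : i < j) => g i (v i))`, where for a family `w` the node `ub j w` has length
  the supremum of `v0.len` and the lengths of the `w i`, and `(ub j w).fn ν = (w i).fn ν` for some (any) `i < j` with `ν < (w i).len`, and
  `v0.fn ν` if there is none. By strong induction on `j ≤ om (n + 1)`: `v j ∈ T m`, `Le v0 (v j)`, `Le (g i (v i)) (v j)` for `i < j`: the nodes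
  `g i (v i)`, `i < j`, form a chain; the supremum of `aleph (n + 1)` ordinals `< om m` is `< om m` as `n + 1 < m` (`om_sup`, or take the
  least strict upper bound given by it). Take `z = v (om (n + 1))`.
-/

set_option autoImplicit false

open Cardinal Ordinal Set

namespace Pool.Agent.H.MP_353193_lc.SM

private theorem Chn_ub (n m : ℕ) (hnm : n + 1 < m) (v0 : Nod) (h0 : v0 ∈ T m) (j : Ordinal.{0})
    (hj : j ≤ om (n + 1)) (w : Ordinal.{0} → Nod) (hT : ∀ i, i < j → w i ∈ T m)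
    (h0w : ∀ i, i < j → Le v0 (w i)) (hc : ∀ i i', i < i' → i' < j → Le (w i) (w i')) :
    ∃ z, z ∈ T m ∧ Le v0 z ∧ ∀ i, i < j → Le (w i) z := by
  classical
  obtain ⟨b, hb, hbi⟩ := om_sup hnm j hj (fun i => (w i).len) hT
  refine ⟨⟨max b v0.len, fun ν => if h : ∃ i, i < j ∧ ν < (w i).len then (w h.choose).fn ν
    else v0.fn ν⟩, ?_, ⟨?_, ?_⟩, ?_⟩
  · show max b v0.len < om m
    exact max_lt hb h0
  · show v0.len ≤ max b v0.len
    exact le_max_right _ _
  · intro μ hμ
    show (if h : ∃ i, i < j ∧ μ < (w i).len then (w h.choose).fn μ else v0.fn μ) = v0.fn μ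
    split_ifs with h
    · exact (h0w _ h.choose_spec.1).2 μ hμ
    · rfl
  · intro i hi
    refine ⟨?_, ?_⟩
    · show (w i).len ≤ max b v0.len
      exact (hbi i hi).trans (le_max_left _ _)
    · intro μ hμ
      show (if h : ∃ i, i < j ∧ μ < (w i).len then (w h.choose).fn μ else v0.fn μ) = (w i).fn μ
      have h : ∃ i, i < j ∧ μ < (w i).len := ⟨i, hi, hμ⟩
      rw [dif_pos h]
      obtain ⟨h1, h2⟩ := h.choose_spec
      rcases lt_trichotomy i h.choose with h3 | h3 | h3
      · exact (hc i _ h3 h1).2 μ hμ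
      · rw [← h3]
      · exact ((hc _ i h3 hi).2 μ h2).symm

open Classical in
/-- the recursion -/
private noncomputable def Chn_v (m : ℕ) (g : Ordinal.{0} → Nod → Nod) (v0 : Nod) :
    Ordinal.{0} → Nod :=
  (wellFounded_lt (α := Ordinal.{0})).fix (C := fun _ => Nod) fun j ih =>
    if h : ∃ z, z ∈ T m ∧ Le v0 z ∧ ∀ i (hi : i < j), Le (g i (ih i hi)) z then h.choose else v0

private theorem Chn_eq (m : ℕ) (g : Ordinal.{0} → Nod → Nod) (v0 : Nod) (j : Ordinal.{0})
    (h : ∃ z, z ∈ T m ∧ Le v0 z ∧ ∀ i, i < j → Le (g i (Chn_v m g v0 i)) z) :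
    Chn_v m g v0 j ∈ T m ∧ Le v0 (Chn_v m g v0 j) ∧
      ∀ i, i < j → Le (g i (Chn_v m g v0 i)) (Chn_v m g v0 j) := by
  classical
  have h1 : Chn_v m g v0 j = h.choose := by
    unfold Chn_v
    rw [WellFounded.fix_eq]
    exact dif_pos h
  rw [h1]
  exact h.choose_spec

theorem chain (n m : ℕ) (hnm : n + 1 < m) (g : Ordinal.{0} → Nod → Nod)
    (hg : ∀ i, i < om (n + 1) → ∀ v ∈ T m, g i v ∈ T m ∧ Le v (g i v)) (v0 : Nod) (h0 : v0 ∈ T m) :
    ∃ (v : Ordinal.{0} → Nod) (z : Nod), z ∈ T m ∧ Le v0 z ∧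
      (∀ i, i < om (n + 1) → v i ∈ T m ∧ Le v0 (v i) ∧ Le (g i (v i)) z) ∧
      ∀ i j, i < j → j < om (n + 1) → Le (g i (v i)) (v j) := by
  have key : ∀ j, j ≤ om (n + 1) → Chn_v m g v0 j ∈ T m ∧ Le v0 (Chn_v m g v0 j) ∧
      ∀ i, i < j → Le (g i (Chn_v m g v0 i)) (Chn_v m g v0 j) := by
    intro j
    induction j using WellFoundedLT.induction with
    | ind j ih =>
      intro hj
      refine Chn_eq m g v0 j (Chn_ub n m hnm v0 h0 j hj (fun i => g i (Chn_v m g v0 i)) ?_ ?_ ?_)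
      · intro i hi
        exact (hg i (hi.trans_le hj) _ (ih i hi (hi.le.trans hj)).1).1
      · intro i hi
        have h1 := ih i hi (hi.le.trans hj)
        exact h1.2.1.trans (hg i (hi.trans_le hj) _ h1.1).2
      · intro i i' hii hi'
        have h1 := ih i' hi' (hi'.le.trans hj)
        exact (h1.2.2 i hii).trans (hg i' (hi'.trans_le hj) _ h1.1).2
  obtain ⟨h1, h2, h3⟩ := key (om (n + 1)) le_rfl
  refine ⟨Chn_v m g v0, Chn_v m g v0 (om (n + 1)), h1, h2, fun i hi => ?_, fun i j hij hj => ?_⟩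
  · obtain ⟨h4, h5, -⟩ := key i hi.le
    exact ⟨h4, h5, h3 i hi⟩
  · exact (key j hj.le).2.2 i hij

end Pool.Agent.H.MP_353193_lc.SM
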