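import Pool.Agent.H.MP_353193_lc.SM.Ct
import Pool.Agent.H.MP_353193_lc.SM.Chn

/-!
# Adt: additivity of density

Otherwise for all `α < om (n + 1)` and `u ∈ T m` above `s` there is `u' ∈ T m` above `u` such that no `y ∈ R omω` is in `B α ∩ cn u'`.
Let `g α u` be such a `u'` (and `g α u = u` if `u` is not above `s`), apply `chain` with `v0 = s`: `cn z ⊆ cn (g α (v α))` for all `α`, so no point of
`R omω` is in `cn z`, a contradiction to `cn_nonempty`.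
-/

set_option autoImplicit false

open Cardinal Ordinal Set

namespace Pool.Agent.H.MP_353193_lc.SM

theorem additivity (n m : ℕ) (hnm : n + 1 < m) (B : Ordinal.{0} → Set Seq)
    (hB : ∀ y ∈ R omω, ∃ α, α < om (n + 1) ∧ y ∈ B α) (s : Nod) (hs : s ∈ T m) :
    ∃ α, α < om (n + 1) ∧ ∃ u ∈ T m, Le s u ∧ Dn (B α) m u := by
  by_contra hcon
  have hnd : ∀ α, α < om (n + 1) → ∀ u ∈ T m, Le s u → ∃ u', Le u u' ∧ u' ∈ T m ∧
      ∀ y ∈ R omω, y ∈ B α → y ∉ cn u' := by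
    intro α hα u hu hsu
    by_contra hc
    refine hcon ⟨α, hα, u, hu, hsu, fun u' h1 h2 => ?_⟩
    by_contra hc2
    exact hc ⟨u', h1, h2, fun y hy hyB hyc => hc2 ⟨y, hy, hyB, hyc⟩⟩
  have key : ∀ (α : Ordinal.{0}) (u : Nod), ∃ u' : Nod,
      (u ∈ T m → u' ∈ T m ∧ Le u u') ∧
      (α < om (n + 1) → u ∈ T m → Le s u → ∀ y ∈ R omω, y ∈ B α → y ∉ cn u') := by
    intro α u
    by_cases h : α < om (n + 1) ∧ u ∈ T m ∧ Le s u
    · obtain ⟨u', h1, h2, h3⟩ := hnd α h.1 u h.2.1 h.2.2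
      exact ⟨u', fun _ => ⟨h2, h1⟩, fun _ _ _ => h3⟩
    · exact ⟨u, fun hu => ⟨hu, Le.refl u⟩, fun h1 h2 h3 => absurd ⟨h1, h2, h3⟩ h⟩
  choose g hg1 hg2 using key
  obtain ⟨v, z, hz, -, hv, -⟩ := chain n m hnm g (fun i _ v hv => hg1 i v hv) s hs
  obtain ⟨y, hyR, hyz⟩ := cn_nonempty hz
  obtain ⟨α, hα, hyB⟩ := hB y hyR
  obtain ⟨h1, h2, h3⟩ := hv α hα
  exact hg2 α (v α) hα h1 h2 y hyR hyB (h3.cn_subset hyz)

end Pool.Agent.H.MP_353193_lc.SM
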