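import Pool.Agent.H.MP_353193_lc.SM.Ct

/-!
# Pr: pairs of sequences

* `lv_spec`: `csInf_mem` / `Nat.sInf_mem`, the set is nonempty by `lt_omω_iff`.
* `cat_sep` from `cat_lt` and `cat_bit`.
* `pair`: `x`, `y` in `R omω`, `lexlt x y`. `k = min (min (lv x) (lv y)) i`, where `i` is the least index such that the first
  difference `ν` of `x`, `y` is `< om i` (it exists as `y ν = true` and the support of `y` is bounded). If `k = i` then `x`, `y` differ
  below `om k` (first alternative of the conclusion of `pair`). Otherwise `x`, `y` agree below `om k`; if `lv y = k` then `y = true` nowhere beyond `om k`, but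
  `y ν = true`, `om k ≤ ν`, a contradiction; so `lv x = k < lv y`.
-/

set_option autoImplicit false

open Cardinal Ordinal Set

namespace Pool.Agent.H.MP_353193_lc.SM

theorem lv_spec {x : Seq} (hx : x ∈ R omω) : ∀ ν, x ν = true → ν < om (lv x) := by
  obtain ⟨-, β, hβ, h2⟩ := hx
  obtain ⟨j, hj⟩ := (lt_omω_iff β).1 hβ
  have h3 : {j : ℕ | ∀ ν, x ν = true → ν < om j}.Nonempty :=
    ⟨j, fun ν hν => (h2 ν hν).trans hj⟩
  exact Nat.sInf_mem h3

theorem pair {x y : Seq} (hx : x ∈ R omω) (hy : y ∈ R omω) (h : lexlt x y) :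
    ∃ k, k ≤ lv x ∧ k ≤ lv y ∧ (∀ i, i < k → ∀ μ, μ < om i → x μ = y μ) ∧
      ((∃ ν, ν < om k ∧ (∀ μ, μ < ν → x μ = y μ) ∧ x ν = false ∧ y ν = true) ∨
        ((∀ μ, μ < om k → x μ = y μ) ∧ lv x = k ∧ k < lv y)) := by
  classical
  obtain ⟨ν, ha, hxν, hyν⟩ := h
  have hex : ∃ i : ℕ, ν < om i := ⟨lv y, lv_spec hy ν hyν⟩
  have h1 : ν < om (Nat.find hex) := Nat.find_spec hex
  have h2 : ∀ j, j < Nat.find hex → om j ≤ ν := fun j hj => not_lt.1 (Nat.find_min hex hj)
  have h3 : Nat.find hex ≤ lv y := Nat.find_min' hex (lv_spec hy ν hyν)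
  generalize Nat.find hex = i at h1 h2 h3
  by_cases hc : i ≤ lv x
  · exact ⟨i, hc, h3, fun j hj μ hμ => ha μ (hμ.trans_le (h2 j hj)),
      Or.inl ⟨ν, h1, ha, hxν, hyν⟩⟩
  · have hc' : lv x < i := not_le.1 hc
    exact ⟨lv x, le_rfl, (hc'.trans_le h3).le,
      fun j hj μ hμ => ha μ (hμ.trans_le (h2 j (hj.trans hc'))),
      Or.inr ⟨fun μ hμ => ha μ (hμ.trans_le (h2 _ hc')), rfl, hc'.trans_le h3⟩⟩

/-- The cones used in the round `k` of `pair` are ordered like `x`, `y`. -/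
theorem cat_sep {x y : Seq} {k : ℕ}
    (h : (∃ ν, ν < om k ∧ (∀ μ, μ < ν → x μ = y μ) ∧ x ν = false ∧ y ν = true) ∨
        ((∀ μ, μ < om k → x μ = y μ) ∧ lv x = k ∧ k < lv y)) (v : Nod) {f g : Seq}
    (hf : f ∈ cn (cat v x (om k) (decide (k < lv x)))) (hg : g ∈ cn (cat v y (om k) (decide (k < lv y)))) :
    lexlt f g := by
  rcases h with h | ⟨h1, h2, h3⟩
  · exact cat_lt h hf hg
  · have e1 : decide (k < lv x) = false := decide_eq_false (by omega)
    have e2 : decide (k < lv y) = true := decide_eq_true h3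
    rw [e1] at hf
    rw [e2] at hg
    exact cat_bit h1 hf hg

end Pool.Agent.H.MP_353193_lc.SM
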