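import Pool.Agent.H.MP_353193_lc.SM.Stp
import Pool.Agent.H.MP_353193_lc.SM.Pr

/-!
# Bld: the free copy

* `free_copy`: For a strictly increasing `ψ : R omω → R omω` let `F' x = {x' ∈ R omω | ψ x' ∈ F (ψ x)}` (`ψ` is injective on `R omω`, so
  `#(F' x) ≤ aleph n` for `x ∈ R omω`). Apply `step` to `F'`, `j`: `v ψ j`, `θ ψ j b`, `p ψ j b`. Recursion: `Ψ x 0 = id`,
  `Ψ x (j + 1) = Ψ x j ∘ θ (Ψ x j) j (tr x j)`, where `tr x j ν = x ν` for `ν < om j` and `false` otherwise; so `Ψ x k` depends only on the digits of `x` below `om i`,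
  `i < k`; every `Ψ x j` satisfies `Emb (Ψ x j) univ`. `φ x = Ψ x j (p (Ψ x j) j (tr x j))` with `j = lv x`. For `k ≤ lv x`: `φ x = Ψ x k x'` with `x' ∈ R omω`,
  `x' ∈ cn (cat v x (om k) (decide (k < lv x)))` and `∀ z ∈ F' x', z ∈ cn v → z ∈ cn (cat v x (om k) (decide (k < lv x)))`, `v = v (Ψ x k) k`. For `lexlt x y` use `pair`:
  `Ψ x k = Ψ y k`, `φ x = Ψ x k x'`, `φ y = Ψ x k y'`, `cat_sep` gives `lexlt x' y'`, so `lexlt (φ x) (φ y)`; if `φ y ∈ F (φ x)` then `y' ∈ F' x'`, `y' ∈ cn v` (`cat_le`), so `y'` is in the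
  cone of `x`, and `cat_sep` (with `f = g = y'`) contradicts `lexlt_irrefl`; the same for `φ x ∈ F (φ y)`.
-/

set_option autoImplicit false

open Cardinal Ordinal Set

namespace Pool.Agent.H.MP_353193_lc.SM

/-- The set mapping pulled back along `ψ`. -/
private def Bld_F (F : Seq → Set Seq) (ψ : Seq → Seq) (x : Seq) : Set Seq :=
  {x' | x' ∈ R omω ∧ ψ x' ∈ F (ψ x)}

private theorem Bld_inj {ψ : Seq → Seq} (h : Emb ψ univ) {x y : Seq} (hx : x ∈ R omω)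
    (hy : y ∈ R omω) (he : ψ x = ψ y) : x = y := by
  by_contra hne
  rcases lexlt_total hne with h1 | h1
  · have h2 := h.2 x hx y hy h1
    rw [he] at h2
    exact lexlt_irrefl _ h2
  · have h2 := h.2 y hy x hx h1
    rw [he] at h2
    exact lexlt_irrefl _ h2

private theorem Bld_card {n : ℕ} {F : Seq → Set Seq}
    (hF : ∀ y ∈ R omω, #(F y) ≤ Cardinal.aleph (n : Ordinal.{1})) {ψ : Seq → Seq}
    (h : Emb ψ univ) : ∀ y ∈ R omω, #(Bld_F F ψ y) ≤ Cardinal.aleph (n : Ordinal.{1}) := by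
  intro y hy
  refine le_trans ?_ (hF (ψ y) (h.1 y hy).1)
  exact Cardinal.mk_le_of_injective (f := fun x : Bld_F F ψ y => (⟨ψ x.1, x.2.2⟩ : F (ψ y)))
    (fun a b hab => Subtype.ext (Bld_inj h a.2.1 b.2.1 (congrArg Subtype.val hab)))

/-- The digits of `x` below `om j`. -/
private noncomputable def Bld_tr (x : Seq) (j : ℕ) : Seq := fun ν => if ν < om j then x ν else false

private theorem Bld_tr_congr {x y : Seq} {j : ℕ} (h : ∀ μ, μ < om j → x μ = y μ) :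
    Bld_tr x j = Bld_tr y j := by
  funext ν
  unfold Bld_tr
  split_ifs with hν
  · exact h ν hν
  · rfl

theorem free_copy (n : ℕ) (F : Seq → Set Seq)
    (hF : ∀ y ∈ R omω, #(F y) ≤ Cardinal.aleph (n : Ordinal.{1})) :
    ∃ φ : Seq → Seq, Emb φ univ ∧ ∀ f ∈ R omω, ∀ g ∈ R omω, f ≠ g → φ g ∉ F (φ f) := by
  choose v θ p hθ hp using fun (ψ : {ψ : Seq → Seq // Emb ψ univ}) (j : ℕ) =>
    step n j (Bld_F F ψ.1) (Bld_card hF ψ.2)
  have hid : Emb (fun x => x) univ := ⟨fun f hf => ⟨hf, trivial⟩, fun f _ g _ h => h⟩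
  obtain ⟨Ψ, h0, hs⟩ : ∃ Ψ : Seq → ℕ → {ψ : Seq → Seq // Emb ψ univ},
      (∀ x, Ψ x 0 = ⟨fun z => z, hid⟩) ∧
      ∀ x k, (Ψ x (k + 1)).1 = fun z => (Ψ x k).1 (θ (Ψ x k) k (Bld_tr x k) z) :=
    ⟨fun x k => Nat.rec (motive := fun _ => {ψ : Seq → Seq // Emb ψ univ}) ⟨fun z => z, hid⟩
      (fun j ψ => ⟨fun z => ψ.1 (θ ψ j (Bld_tr x j) z), Emb.comp ψ.2 (hθ ψ j (Bld_tr x j))⟩) k,
      fun _ => rfl, fun _ _ => rfl⟩
  have hcong : ∀ (k : ℕ) (x y : Seq), (∀ i, i < k → ∀ μ, μ < om i → x μ = y μ) →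
      Ψ x k = Ψ y k := by
    intro k
    induction k with
    | zero => intro x y _; rw [h0, h0]
    | succ k ih =>
      intro x y hxy
      have e1 := ih x y fun i hi => hxy i (hi.trans (Nat.lt_succ_self k))
      have e2 : Bld_tr x k = Bld_tr y k := Bld_tr_congr (hxy k (Nat.lt_succ_self k))
      exact Subtype.ext (by rw [hs, hs, e1, e2])
  let φ : Seq → Seq := fun x => (Ψ x (lv x)).1 (p (Ψ x (lv x)) (lv x) (Bld_tr x (lv x)))
  have hdown : ∀ (x : Seq) (d k : ℕ), k + d = lv x → ∃ x' ∈ R omω, φ x = (Ψ x k).1 x' := by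
    intro x d
    induction d with
    | zero =>
      intro k hk
      rw [Nat.add_zero] at hk
      subst hk
      exact ⟨_, (hp (Ψ x (lv x)) (lv x) (Bld_tr x (lv x))).1, rfl⟩
    | succ d ih =>
      intro k hk
      obtain ⟨x', hx', he⟩ := ih (k + 1) (by omega)
      refine ⟨θ (Ψ x k) k (Bld_tr x k) x', ((hθ (Ψ x k) k (Bld_tr x k)).1 x' hx').1, ?_⟩
      rw [he, hs]
  have hA : ∀ (x : Seq) (k : ℕ), k ≤ lv x → ∃ x' ∈ R omω, φ x = (Ψ x k).1 x' ∧
      x' ∈ cn (cat (v (Ψ x k) k) x (om k) (decide (k < lv x))) ∧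
      ∀ z ∈ Bld_F F (Ψ x k).1 x', z ∈ cn (v (Ψ x k) k) →
        z ∈ cn (cat (v (Ψ x k) k) x (om k) (decide (k < lv x))) := by
    intro x k hk
    have htr : ∀ i, cat (v (Ψ x k) k) (Bld_tr x k) (om k) i = cat (v (Ψ x k) k) x (om k) i :=
      fun i => cat_congr _ (fun μ hμ => by rw [Bld_tr, if_pos hμ]) i
    rcases hk.eq_or_lt with heq | hlt
    · subst heq
      obtain ⟨g1, g2, g3⟩ := hp (Ψ x (lv x)) (lv x) (Bld_tr x (lv x))
      rw [htr] at g2 g3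
      have hd : decide (lv x < lv x) = false := decide_eq_false (lt_irrefl _)
      rw [hd]
      exact ⟨_, g1, rfl, g2, g3⟩
    · obtain ⟨x', hx', he⟩ := hdown x (lv x - (k + 1)) (k + 1) (by omega)
      obtain ⟨g1, g2, g3⟩ := (hθ (Ψ x k) k (Bld_tr x k)).1 x' hx'
      rw [htr] at g2 g3
      have hd : decide (k < lv x) = true := decide_eq_true hlt
      rw [hd]
      exact ⟨_, g1, by rw [he, hs], g2, g3⟩
  -- the two sequences in the round of `pair`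
  have hB : ∀ x ∈ R omω, ∀ y ∈ R omω, lexlt x y →
      lexlt (φ x) (φ y) ∧ φ y ∉ F (φ x) ∧ φ x ∉ F (φ y) := by
    intro x hx y hy hxy
    obtain ⟨k, k1, k2, k3, k4⟩ := pair hx hy hxy
    obtain ⟨x', hx', ex, cx, fx⟩ := hA x k k1
    obtain ⟨y', hy', ey, cy, fy⟩ := hA y k k2
    rw [← hcong k x y k3] at ey cy fy
    have hl : lexlt x' y' := cat_sep k4 _ cx cy
    refine ⟨?_, ?_, ?_⟩
    · rw [ex, ey]
      exact (Ψ x k).2.2 x' hx' y' hy' hl
    · intro hc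
      rw [ex, ey] at hc
      have h1 := fx y' ⟨hy', hc⟩ ((cat_le _ _ _ _).cn_subset cy)
      exact lexlt_irrefl y' (cat_sep k4 _ h1 cy)
    · intro hc
      rw [ex, ey] at hc
      have h1 := fy x' ⟨hx', hc⟩ ((cat_le _ _ _ _).cn_subset cx)
      exact lexlt_irrefl x' (cat_sep k4 _ cx h1)
  refine ⟨φ, ⟨fun f hf => ⟨?_, trivial⟩, fun f hf g hg hfg => (hB f hf g hg hfg).1⟩, ?_⟩
  · obtain ⟨x', hx', he, -⟩ := hA f 0 (Nat.zero_le _)
    rw [he]
    exact ((Ψ f 0).2.1 x' hx').1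
  · intro f hf g hg hne
    rcases lexlt_total hne with h1 | h1
    · exact (hB f hf g hg h1).2.1
    · exact (hB g hg f hf h1).2.2

end Pool.Agent.H.MP_353193_lc.SM
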