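import Pool.Agent.H.MP_353193_lc.SM.LocT
import Pool.Agent.H.MP_353193_lc.SM.Pr

/-!
# BldT: the free copy (first differences)

`stepT` as `step` in Stp.lean, `free_copyT` as `free_copy` in Bld.lean, with `EmbT`, `PB`, `DF_card` (`#(DF (PB F ψ) x) ≤ #(DF F (ψ x))`), `EmbT.comp`, `EmbT.id` in the place of `Emb`, `Bld_F`,
`Bld_card`. The members of `PB F ψ x` are in `R omω`.
-/

set_option autoImplicit false

open Cardinal Ordinal Set

namespace Pool.Agent.H.MP_353193_lc.SM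

theorem stepT (n j : ℕ) (F : Seq → Set Seq)
    (hF : ∀ y ∈ R omω, #(DF F y) ≤ Cardinal.aleph (n : Ordinal.{1})) :
    ∃ (v : Nod) (θ : Seq → Seq → Seq) (p : Seq → Seq),
      (∀ b, EmbT (θ b) {y | y ∈ cn (cat v b (om j) true) ∧
        ∀ z ∈ F y, z ∈ R omω → z ∈ cn v → z ∈ cn (cat v b (om j) true)}) ∧
      ∀ b, p b ∈ R omω ∧ p b ∈ cn (cat v b (om j) false) ∧
        ∀ z ∈ F (p b), z ∈ R omω → z ∈ cn v → z ∈ cn (cat v b (om j) false) := by
  obtain ⟨v, hv, h⟩ := local_nodeT n (n + j + 2) (by omega) F hF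
  have hm : ∀ (b : Seq) (i : Bool), cat v b (om j) i ∈ T (n + j + 2) := fun b i =>
    cat_mem_T (by omega) hv b i
  have h1 : ∀ b : Seq, LgT {y | y ∈ cn (cat v b (om j) true) ∧
      ∀ z ∈ F y, z ∈ R omω → z ∈ cn v → z ∈ cn (cat v b (om j) true)} := fun b =>
    h _ (hm b true) (cat_le v b (om j) true)
  have h2 : ∀ b : Seq, ∃ y, y ∈ R omω ∧ y ∈ cn (cat v b (om j) false) ∧
      ∀ z ∈ F y, z ∈ R omω → z ∈ cn v → z ∈ cn (cat v b (om j) false) := by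
    intro b
    obtain ⟨θ, hθ⟩ := h _ (hm b false) (cat_le v b (om j) false)
    obtain ⟨y, hy, -⟩ := cn_nonempty hv
    have h3 := hθ.1.1 y hy
    exact ⟨θ y, h3.1, h3.2.1, h3.2.2⟩
  choose θ hθ using h1
  choose p hp using h2
  exact ⟨v, θ, p, hθ, hp⟩

/-- The digits of `x` below `om j`. -/
private noncomputable def BldT_tr (x : Seq) (j : ℕ) : Seq := fun ν => if ν < om j then x ν else false

private theorem BldT_tr_congr {x y : Seq} {j : ℕ} (h : ∀ μ, μ < om j → x μ = y μ) :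
    BldT_tr x j = BldT_tr y j := by
  funext ν
  unfold BldT_tr
  split_ifs with hν
  · exact h ν hν
  · rfl

theorem free_copyT (n : ℕ) (F : Seq → Set Seq)
    (hF : ∀ y ∈ R omω, #(DF F y) ≤ Cardinal.aleph (n : Ordinal.{1})) :
    ∃ φ : Seq → Seq, Emb φ univ ∧ ∀ f ∈ R omω, ∀ g ∈ R omω, f ≠ g → φ g ∉ F (φ f) := by
  choose v θ p hθ hp using fun (ψ : {ψ : Seq → Seq // EmbT ψ univ}) (j : ℕ) =>
    stepT n j (PB F ψ.1) fun y hy => (DF_card ψ.2 hy).trans (hF _ (ψ.2.1.1 y hy).1)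
  have hid : EmbT (fun x => x) univ := EmbT.id
  obtain ⟨Ψ, h0, hs⟩ : ∃ Ψ : Seq → ℕ → {ψ : Seq → Seq // EmbT ψ univ},
      (∀ x, Ψ x 0 = ⟨fun z => z, hid⟩) ∧
      ∀ x k, (Ψ x (k + 1)).1 = fun z => (Ψ x k).1 (θ (Ψ x k) k (BldT_tr x k) z) :=
    ⟨fun x k => Nat.rec (motive := fun _ => {ψ : Seq → Seq // EmbT ψ univ}) ⟨fun z => z, hid⟩
      (fun j ψ => ⟨fun z => ψ.1 (θ ψ j (BldT_tr x j) z), EmbT.comp ψ.2 (hθ ψ j (BldT_tr x j))⟩) k,
      fun _ => rfl, fun _ _ => rfl⟩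
  have hcong : ∀ (k : ℕ) (x y : Seq), (∀ i, i < k → ∀ μ, μ < om i → x μ = y μ) →
      Ψ x k = Ψ y k := by
    intro k
    induction k with
    | zero => intro x y _; rw [h0, h0]
    | succ k ih =>
      intro x y hxy
      have e1 := ih x y fun i hi => hxy i (hi.trans (Nat.lt_succ_self k))
      have e2 : BldT_tr x k = BldT_tr y k := BldT_tr_congr (hxy k (Nat.lt_succ_self k))
      exact Subtype.ext (by rw [hs, hs, e1, e2])
  let φ : Seq → Seq := fun x => (Ψ x (lv x)).1 (p (Ψ x (lv x)) (lv x) (BldT_tr x (lv x)))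
  have hdown : ∀ (x : Seq) (d k : ℕ), k + d = lv x → ∃ x' ∈ R omω, φ x = (Ψ x k).1 x' := by
    intro x d
    induction d with
    | zero =>
      intro k hk
      rw [Nat.add_zero] at hk
      subst hk
      exact ⟨_, (hp (Ψ x (lv x)) (lv x) (BldT_tr x (lv x))).1, rfl⟩
    | succ d ih =>
      intro k hk
      obtain ⟨x', hx', he⟩ := ih (k + 1) (by omega)
      refine ⟨θ (Ψ x k) k (BldT_tr x k) x', ((hθ (Ψ x k) k (BldT_tr x k)).1.1 x' hx').1, ?_⟩
      rw [he, hs]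
  have hA : ∀ (x : Seq) (k : ℕ), k ≤ lv x → ∃ x' ∈ R omω, φ x = (Ψ x k).1 x' ∧
      x' ∈ cn (cat (v (Ψ x k) k) x (om k) (decide (k < lv x))) ∧
      ∀ z ∈ PB F (Ψ x k).1 x', z ∈ cn (v (Ψ x k) k) →
        z ∈ cn (cat (v (Ψ x k) k) x (om k) (decide (k < lv x))) := by
    intro x k hk
    have htr : ∀ i, cat (v (Ψ x k) k) (BldT_tr x k) (om k) i = cat (v (Ψ x k) k) x (om k) i :=
      fun i => cat_congr _ (fun μ hμ => by rw [BldT_tr, if_pos hμ]) i
    rcases hk.eq_or_lt with heq | hlt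
    · subst heq
      obtain ⟨g1, g2, g3⟩ := hp (Ψ x (lv x)) (lv x) (BldT_tr x (lv x))
      rw [htr] at g2 g3
      have hd : decide (lv x < lv x) = false := decide_eq_false (lt_irrefl _)
      rw [hd]
      exact ⟨_, g1, rfl, g2, fun z hz => g3 z hz hz.1⟩
    · obtain ⟨x', hx', he⟩ := hdown x (lv x - (k + 1)) (k + 1) (by omega)
      obtain ⟨g1, g2, g3⟩ := (hθ (Ψ x k) k (BldT_tr x k)).1.1 x' hx'
      rw [htr] at g2 g3
      have hd : decide (k < lv x) = true := decide_eq_true hlt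
      rw [hd]
      exact ⟨_, g1, by rw [he, hs], g2, fun z hz => g3 z hz hz.1⟩
  -- the two sequences in the round of `pair`
  have hB : ∀ x ∈ R omω, ∀ y ∈ R omω, lexlt x y →
      lexlt (φ x) (φ y) ∧ φ y ∉ F (φ x) ∧ φ x ∉ F (φ y) := by
    intro x hx y hy hxy
    obtain ⟨k, k1, k2, k3, k4⟩ := pair hx hy hxy
    obtain ⟨x', hx', ex, cx, fx⟩ := hA x k k1
    obtain ⟨y', hy', ey, cy, fy⟩ := hA y k k2
    rw [← hcong k x y k3] at ey cy fy
    have hl : lexlt x' y' := cat_sep k4 _ cx cy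
    refine ⟨?_, ?_, ?_⟩
    · rw [ex, ey]
      exact (Ψ x k).2.1.2 x' hx' y' hy' hl
    · intro hc
      rw [ex, ey] at hc
      have h1 := fx y' ⟨hy', hc⟩ ((cat_le _ _ _ _).cn_subset cy)
      exact lexlt_irrefl y' (cat_sep k4 _ h1 cy)
    · intro hc
      rw [ex, ey] at hc
      have h1 := fy x' ⟨hx', hc⟩ ((cat_le _ _ _ _).cn_subset cx)
      exact lexlt_irrefl x' (cat_sep k4 _ cx h1)
  refine ⟨φ, ⟨fun f hf => ⟨?_, trivial⟩, fun f hf g hg hfg => (hB f hf g hg hfg).1⟩, ?_⟩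
  · obtain ⟨x', hx', he, -⟩ := hA f 0 (Nat.zero_le _)
    rw [he]
    exact ((Ψ f 0).2.1.1 x' hx').1
  · intro f hf g hg hne
    rcases lexlt_total hne with h1 | h1
    · exact (hB f hf g hg h1).2.1
    · exact (hB g hg f hf h1).2.2

end Pool.Agent.H.MP_353193_lc.SM
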