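import Pool.Agent.H.MP_353193_lc.SM.Om

/-!
# Ct: facts on `cat`, `cn`

* `emb_cn`: `θ x ν = if ν < u.len then u.fn ν else x (ν - u.len)`; if `x` has support below `β < omω` then `θ x` has support below
  `u.len + β < omω` (`Ordinal.isPrincipal_add_ord`); `θ x (u.len + ν) = x ν`.
* `cat_mem_T`: `u.len + om j + 1 < om m` for `j < m` (`om m` is additively principal).
-/

set_option autoImplicit false

open Cardinal Ordinal Set

namespace Pool.Agent.H.MP_353193_lc.SM

private theorem Ct_not_lt (a b : Ordinal.{0}) : ¬ a + b < a :=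
  not_lt.mpr le_self_add

private theorem Ct_add_omω {m : ℕ} {a b : Ordinal.{0}} (ha : a < om m) (hb : b < omω) :
    a + b < omω := by
  obtain ⟨j, hj⟩ := (lt_omω_iff b).mp hb
  refine (lt_omω_iff _).mpr ⟨max m j, ?_⟩
  exact om_add (ha.trans_le (om_le (le_max_left m j))) (hj.trans_le (om_le (le_max_right m j)))

private theorem Ct_one_mem : (fun ν : Ordinal.{0} => decide (ν = 0)) ∈ R omω := by
  refine ⟨⟨0, by simp⟩, om 0, om_lt_omω 0, ?_⟩
  intro ν hν
  have h0 : ν = 0 := by simpa using hν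
  rw [h0]
  exact om_pos 0

theorem emb_cn {m : ℕ} {u : Nod} (hu : u ∈ T m) : Lg (cn u) := by
  refine ⟨fun x ν => if ν < u.len then u.fn ν else x (ν - u.len), ?_, ?_⟩
  · rintro x ⟨⟨ν, hν⟩, β, hβ, hs⟩
    refine ⟨⟨⟨u.len + ν, ?_⟩, u.len + β, Ct_add_omω hu hβ, ?_⟩, ?_⟩
    · show (if u.len + ν < u.len then u.fn (u.len + ν) else x (u.len + ν - u.len)) = true
      rw [if_neg (Ct_not_lt _ _), Ordinal.add_sub_cancel]
      exact hν
    · intro κ hκ
      by_cases hk : κ < u.len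
      · exact hk.trans_le le_self_add
      · have hκ' : x (κ - u.len) = true := by
          have h1 : (if κ < u.len then u.fn κ else x (κ - u.len)) = true := hκ
          rwa [if_neg hk] at h1
        exact (Ordinal.sub_lt_of_le (not_lt.mp hk)).mp (hs _ hκ')
    · intro μ hμ
      show (if μ < u.len then u.fn μ else x (μ - u.len)) = u.fn μ
      rw [if_pos hμ]
  · rintro f - g - ⟨ν, h1, h2, h3⟩
    refine ⟨u.len + ν, ?_, ?_, ?_⟩
    · intro μ hμ
      show (if μ < u.len then u.fn μ else f (μ - u.len)) = (if μ < u.len then u.fn μ else g (μ - u.len))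
      by_cases hk : μ < u.len
      · rw [if_pos hk, if_pos hk]
      · rw [if_neg hk, if_neg hk]
        exact h1 _ ((Ordinal.sub_lt_of_le (not_lt.mp hk)).mpr hμ)
    · show (if u.len + ν < u.len then u.fn (u.len + ν) else f (u.len + ν - u.len)) = false
      rw [if_neg (Ct_not_lt _ _), Ordinal.add_sub_cancel]
      exact h2
    · show (if u.len + ν < u.len then u.fn (u.len + ν) else g (u.len + ν - u.len)) = true
      rw [if_neg (Ct_not_lt _ _), Ordinal.add_sub_cancel]
      exact h3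

theorem cn_nonempty {m : ℕ} {u : Nod} (hu : u ∈ T m) : ∃ y ∈ R omω, y ∈ cn u := by
  obtain ⟨θ, hθ⟩ := emb_cn hu
  exact ⟨_, (hθ.1 _ Ct_one_mem).1, (hθ.1 _ Ct_one_mem).2⟩

theorem cat_le (v : Nod) (x : Seq) (γ : Ordinal.{0}) (i : Bool) : Le v (cat v x γ i) := by
  refine ⟨?_, ?_⟩
  · show v.len ≤ v.len + γ + 1
    exact le_self_add.trans le_self_add
  · intro μ hμ
    show (if μ < v.len then v.fn μ else if μ < v.len + γ then x (μ - v.len) else i) = v.fn μ
    rw [if_pos hμ]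

theorem cat_mem_T {m j : ℕ} (hj : j < m) {v : Nod} (hv : v ∈ T m) (x : Seq) (i : Bool) :
    cat v x (om j) i ∈ T m := by
  show v.len + om j + 1 < om m
  exact om_succ (om_add hv (om_lt hj))

theorem cat_congr (v : Nod) {x y : Seq} {γ : Ordinal.{0}} (h : ∀ μ, μ < γ → x μ = y μ) (i : Bool) :
    cat v x γ i = cat v y γ i := by
  have hfn : (fun ν => if ν < v.len then v.fn ν else if ν < v.len + γ then x (ν - v.len) else i) =
      (fun ν => if ν < v.len then v.fn ν else if ν < v.len + γ then y (ν - v.len) else i) := by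
    funext ν
    by_cases h1 : ν < v.len
    · rw [if_pos h1, if_pos h1]
    · rw [if_neg h1, if_neg h1]
      by_cases h2 : ν < v.len + γ
      · rw [if_pos h2, if_pos h2]
        exact h _ ((Ordinal.sub_lt_of_le (not_lt.mp h1)).mpr h2)
      · rw [if_neg h2, if_neg h2]
  unfold cat
  rw [hfn]

private theorem Ct_cat_fn (v : Nod) (x : Seq) (γ : Ordinal.{0}) (i : Bool) {ν : Ordinal.{0}}
    (hν : ν < γ) : (cat v x γ i).fn (v.len + ν) = x ν := by
  show (if v.len + ν < v.len then v.fn (v.len + ν) else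
    if v.len + ν < v.len + γ then x (v.len + ν - v.len) else i) = x ν
  rw [if_neg (Ct_not_lt _ _), if_pos (by gcongr), Ordinal.add_sub_cancel]

private theorem Ct_cat_last (v : Nod) (x : Seq) (γ : Ordinal.{0}) (i : Bool) :
    (cat v x γ i).fn (v.len + γ) = i := by
  show (if v.len + γ < v.len then v.fn (v.len + γ) else
    if v.len + γ < v.len + γ then x (v.len + γ - v.len) else i) = i
  rw [if_neg (Ct_not_lt _ _), if_neg (lt_irrefl _)]

private theorem Ct_lt_len (v : Nod) (x : Seq) {γ ν : Ordinal.{0}} (i : Bool) (hν : ν ≤ γ) :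
    v.len + ν < (cat v x γ i).len := by
  show v.len + ν < v.len + γ + 1
  have h1 : v.len + ν ≤ v.len + γ := by gcongr
  exact Order.lt_add_one_iff.mpr h1

private theorem Ct_agree {v : Nod} {x y : Seq} {γ δ : Ordinal.{0}} (hδ : δ ≤ γ)
    (h : ∀ μ, μ < δ → x μ = y μ) {i i' : Bool} {f g : Seq}
    (hf : f ∈ cn (cat v x γ i)) (hg : g ∈ cn (cat v y γ i')) :
    ∀ μ, μ < v.len + δ → f μ = g μ := by
  intro μ hμ
  by_cases h1 : μ < v.len
  · have a1 : f μ = (cat v x γ i).fn μ := hf μ (h1.trans_le (cat_le v x γ i).1)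
    have a2 : g μ = (cat v y γ i').fn μ := hg μ (h1.trans_le (cat_le v y γ i').1)
    rw [a1, a2, (cat_le v x γ i).2 μ h1, (cat_le v y γ i').2 μ h1]
  · have h2 : μ - v.len < δ := (Ordinal.sub_lt_of_le (not_lt.mp h1)).mpr hμ
    have h3 : v.len + (μ - v.len) = μ := Ordinal.add_sub_cancel_of_le (not_lt.mp h1)
    have a1 : f (v.len + (μ - v.len)) = (cat v x γ i).fn (v.len + (μ - v.len)) :=
      hf _ (Ct_lt_len v x i (h2.le.trans hδ))
    have a2 : g (v.len + (μ - v.len)) = (cat v y γ i').fn (v.len + (μ - v.len)) :=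
      hg _ (Ct_lt_len v y i' (h2.le.trans hδ))
    rw [Ct_cat_fn v x γ i (h2.trans_le hδ)] at a1
    rw [Ct_cat_fn v y γ i' (h2.trans_le hδ)] at a2
    rw [h3] at a1 a2
    rw [a1, a2, h _ h2]

/-- `x` and `y` differ first below `γ` -/
theorem cat_lt {v : Nod} {x y : Seq} {γ : Ordinal.{0}}
    (h : ∃ ν, ν < γ ∧ (∀ μ, μ < ν → x μ = y μ) ∧ x ν = false ∧ y ν = true) {i i' : Bool} {f g : Seq}
    (hf : f ∈ cn (cat v x γ i)) (hg : g ∈ cn (cat v y γ i')) : lexlt f g := by
  obtain ⟨ν, hν, h1, h2, h3⟩ := h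
  refine ⟨v.len + ν, Ct_agree hν.le h1 hf hg, ?_, ?_⟩
  · rw [hf _ (Ct_lt_len v x i hν.le), Ct_cat_fn v x γ i hν]
    exact h2
  · rw [hg _ (Ct_lt_len v y i' hν.le), Ct_cat_fn v y γ i' hν]
    exact h3

theorem cat_bit {v : Nod} {x y : Seq} {γ : Ordinal.{0}} (h : ∀ μ, μ < γ → x μ = y μ) {f g : Seq}
    (hf : f ∈ cn (cat v x γ false)) (hg : g ∈ cn (cat v y γ true)) : lexlt f g := by
  refine ⟨v.len + γ, Ct_agree le_rfl h hf hg, ?_, ?_⟩
  · rw [hf _ (Ct_lt_len v x false le_rfl), Ct_cat_last]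
  · rw [hg _ (Ct_lt_len v y true le_rfl), Ct_cat_last]

end Pool.Agent.H.MP_353193_lc.SM
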