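import Pool.Agent.H.MP_353193_lc.SM.DfT

/-!
# CtT: the map into a cone respects first differences

`θ x ν = if ν < u.len then u.fn ν else x (ν - u.len)` as in the proof of `emb_cn` (Ct.lean). If `Sp x y δ` then `Sp (θ x) (θ y) (u.len + δ)`; by `Sp.unique`
`ε = u.len + δ = u.len + δ'`.
-/

set_option autoImplicit false

open Cardinal Ordinal Set

namespace Pool.Agent.H.MP_353193_lc.SM

private theorem CtT_not_lt (a b : Ordinal.{0}) : ¬ a + b < a :=
  not_lt.mpr le_self_add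

private theorem CtT_add_omω {m : ℕ} {a b : Ordinal.{0}} (ha : a < om m) (hb : b < omω) :
    a + b < omω := by
  obtain ⟨j, hj⟩ := (lt_omω_iff b).mp hb
  refine (lt_omω_iff _).mpr ⟨max m j, ?_⟩
  exact om_add (ha.trans_le (om_le (le_max_left m j))) (hj.trans_le (om_le (le_max_right m j)))

open Classical in
private noncomputable def CtT_th (u : Nod) (x : Seq) : Seq :=
  fun ν => if ν < u.len then u.fn ν else x (ν - u.len)

private theorem CtT_lo (u : Nod) (x : Seq) {ν : Ordinal.{0}} (h : ν < u.len) :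
    CtT_th u x ν = u.fn ν := by
  unfold CtT_th
  rw [if_pos h]

private theorem CtT_hi (u : Nod) (x : Seq) {ν : Ordinal.{0}} (h : ¬ ν < u.len) :
    CtT_th u x ν = x (ν - u.len) := by
  unfold CtT_th
  rw [if_neg h]

private theorem CtT_add (u : Nod) (x : Seq) (ν : Ordinal.{0}) :
    CtT_th u x (u.len + ν) = x ν := by
  rw [CtT_hi u x (CtT_not_lt _ _), Ordinal.add_sub_cancel]

private theorem CtT_emb {m : ℕ} {u : Nod} (hu : u ∈ T m) : Emb (CtT_th u) (cn u) := by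
  refine ⟨?_, ?_⟩
  · rintro x ⟨⟨ν, hν⟩, β, hβ, hs⟩
    refine ⟨⟨⟨u.len + ν, ?_⟩, u.len + β, CtT_add_omω hu hβ, ?_⟩, ?_⟩
    · rw [CtT_add]
      exact hν
    · intro κ hκ
      by_cases hk : κ < u.len
      · exact hk.trans_le le_self_add
      · rw [CtT_hi u x hk] at hκ
        exact (Ordinal.sub_lt_of_le (not_lt.mp hk)).mp (hs _ hκ)
    · intro μ hμ
      exact CtT_lo u x hμ
  · rintro f - g - ⟨ν, h1, h2, h3⟩
    refine ⟨u.len + ν, ?_, ?_, ?_⟩
    · intro μ hμ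
      by_cases hk : μ < u.len
      · rw [CtT_lo u f hk, CtT_lo u g hk]
      · rw [CtT_hi u f hk, CtT_hi u g hk]
        exact h1 _ ((Ordinal.sub_lt_of_le (not_lt.mp hk)).mpr hμ)
    · rw [CtT_add]
      exact h2
    · rw [CtT_add]
      exact h3

private theorem CtT_sp (u : Nod) {x y : Seq} {δ : Ordinal.{0}} (h : Sp x y δ) :
    Sp (CtT_th u x) (CtT_th u y) (u.len + δ) := by
  obtain ⟨⟨ν, h1, h2⟩, h3, h4⟩ := h
  refine ⟨⟨u.len + ν, by gcongr, ?_⟩, ?_, ?_⟩
  · rw [CtT_add]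
    exact h2
  · intro μ hμ
    by_cases hk : μ < u.len
    · rw [CtT_lo u x hk, CtT_lo u y hk]
    · rw [CtT_hi u x hk, CtT_hi u y hk]
      exact h3 _ ((Ordinal.sub_lt_of_le (not_lt.mp hk)).mpr hμ)
  · rw [CtT_add, CtT_add]
    exact h4

theorem emb_cnT {m : ℕ} {u : Nod} (hu : u ∈ T m) : LgT (cn u) := by
  refine ⟨CtT_th u, CtT_emb hu, ?_, ?_⟩
  · intro x _ y _ δ h
    exact ⟨_, CtT_sp u h⟩
  · intro x _ y _ y' _ δ δ' ε h1 h2 h3 h4
    have e1 : ε = u.len + δ := h3.unique (CtT_sp u h1)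
    have e2 : ε = u.len + δ' := h4.unique (CtT_sp u h2)
    exact add_left_cancel (e1.symm.trans e2)

end Pool.Agent.H.MP_353193_lc.SM
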