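import Pool.Agent.H.MP_353193_lc.Defs

/-!
# MP_353193_lc, SM: set mappings on R_omega (definitions and overview)

THEOREM (ZFC). Let `n` be fixed and `F x` a set of at most `aleph n` sequences for every `x` in `R omω`. Then there is a strictly
increasing `φ : R omω → R omω` with `φ g ∉ F (φ f)` for `f ≠ g`. So every graph on `R omω` without `K_{r, aleph n}` has an
independent copy of `R omω`.

Conventions: a node is a 0-1 sequence of length `len` (the values of `fn` beyond `len` do not matter), `cn u` its cone,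
`Le u v`: `v` extends `u`, `T m`: nodes of length `< om m`. `Dn X m u`: `X` meets the cone of every node of `T m` above `u`.

PROOF.
1. `Chn`: chains of length `om (n + 1)` in `T m` (`n + 1 < m`) have upper bounds in `T m`.
2. `Adt`: if `R omω` is the union of `om (n + 1)` sets `B α` then some `Dn (B α) m u`, `u` above any given node of `T m`.
3. `Lose X ξ j v`: the opponent wins, with ordinal rank `ξ`, the game in which in the rounds `j, j + 1, ...` the builder
   chooses `m > j` and `u ∈ T m` above the present node with `Dn X m u` and the opponent chooses a new node `u' ∈ T m` above `u`.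
   `LsA`: if the opponent has no rank then the builder has a move after which he has no rank. `Win`: then `X` contains a copy.
4. `Rnd`, `Sw`, `Inc`: increasing union lemma: a function `a : R omω → om (n + 1)` is bounded on a copy of `R omω`. Otherwise the opponent
   wins for each `B β = {a ≤ β}`. Round `i` uses `m = n + 2 + i`: go through all `β < om (n + 1)` (one chain); if the builder of the
   game `β` has a move, the opponent of that game answers, the rank of `β` drops. Each rank drops finitely often;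
   `om (n + 1)` is regular uncountable, so there are `N` and cofinally many `β` whose rank does not drop after round `N`, so no `Dn (B β) m u` above
   the node reached in round `N`, for cofinally many `β`; this contradicts `Adt` (the sets `B β` increase).
5. `Loc`: there is `v ∈ T m` such that for every `u ∈ T m` above `v` the set of all `y ∈ cn u` with `F y ∩ cn v ⊆ cn u` contains a copy.
   Otherwise a chain `v i`, `g (v i)` of length `om (n + 1)` with upper bound `z`; the sets `cn (v i) \ cn (g (v i))` are pairwise disjoint,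
   `F y` meets at most `aleph n` of them; apply `Inc` in `cn z`.
6. `Stp`, `Bld`: the copy is built in `ω` rounds, pulled back along the copies already chosen.
7. `OrA`, `OrB`: Erdos-Hajnal: graphs without `K_{r, > κ}` have an orientation with all out-degrees `≤ κ`.
-/

set_option autoImplicit false

open Cardinal Ordinal Set

namespace Pool.Agent.H.MP_353193_lc.SM

/-- A node: a 0-1 sequence of length `len` (only the values of `fn` below `len` matter). -/
structure Nod : Type 1 where
  len : Ordinal.{0}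
  fn : Seq

/-- The cone of a node. -/
def cn (u : Nod) : Set Seq := {x | ∀ μ, μ < u.len → x μ = u.fn μ}

/-- `v` extends `u`. -/
def Le (u v : Nod) : Prop := u.len ≤ v.len ∧ ∀ μ, μ < u.len → v.fn μ = u.fn μ

/-- The nodes of length below `om m`. -/
def T (m : ℕ) : Set Nod := {u | u.len < om m}

/-- The node `v`, followed by the first `γ` digits of `x` and the digit `i`. -/
noncomputable def cat (v : Nod) (x : Seq) (γ : Ordinal.{0}) (i : Bool) : Nod where
  len := v.len + γ + 1
  fn := fun ν => if ν < v.len then v.fn ν else if ν < v.len + γ then x (ν - v.len) else i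

/-- `θ` maps `R omω` strictly increasingly into `R omω ∩ D`. -/
def Emb (θ : Seq → Seq) (D : Set Seq) : Prop :=
  (∀ f ∈ R omω, θ f ∈ R omω ∧ θ f ∈ D) ∧ ∀ f ∈ R omω, ∀ g ∈ R omω, lexlt f g → lexlt (θ f) (θ g)

/-- `D` contains a copy of `R omω`. -/
def Lg (D : Set Seq) : Prop := ∃ θ, Emb θ D

/-- `X` meets the cones of all nodes of `T m` above `u`. -/
def Dn (X : Set Seq) (m : ℕ) (u : Nod) : Prop :=
  ∀ u', Le u u' → u' ∈ T m → ∃ y ∈ R omω, y ∈ X ∧ y ∈ cn u'

/-- The opponent wins the game with rank at most `ξ`, round `j`, node `v`. -/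
def Lose (X : Set Seq) (ξ : Ordinal.{1}) (j : ℕ) (v : Nod) : Prop :=
  ∀ m, j < m → ∀ u ∈ T m, Le v u → Dn X m u →
    ∃ ζ, ∃ _ : ζ < ξ, ∃ u' ∈ T m, Le u u' ∧ Lose X ζ (j + 1) u'
termination_by ξ
decreasing_by assumption

theorem lose_iff (X : Set Seq) (ξ : Ordinal.{1}) (j : ℕ) (v : Nod) :
    Lose X ξ j v ↔ ∀ m, j < m → ∀ u ∈ T m, Le v u → Dn X m u →
      ∃ ζ, ∃ _ : ζ < ξ, ∃ u' ∈ T m, Le u u' ∧ Lose X ζ (j + 1) u' := by
  rw [Lose]

/-- The least `j` such that the support of `x` is contained in `om j`. -/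
noncomputable def lv (x : Seq) : ℕ := sInf {j : ℕ | ∀ ν, x ν = true → ν < om j}

theorem Le.refl (u : Nod) : Le u u := ⟨le_rfl, fun _ _ => rfl⟩

theorem Le.trans {u v w : Nod} (h1 : Le u v) (h2 : Le v w) : Le u w :=
  ⟨h1.1.trans h2.1, fun μ h => (h2.2 μ (h.trans_le h1.1)).trans (h1.2 μ h)⟩

theorem Le.cn_subset {u v : Nod} (h : Le u v) : cn v ⊆ cn u :=
  fun _ hx μ hμ => (hx μ (hμ.trans_le h.1)).trans (h.2 μ hμ)

theorem Emb.mono {θ : Seq → Seq} {D E : Set Seq} (h : Emb θ D) (hs : D ⊆ E) : Emb θ E :=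
  ⟨fun f hf => ⟨(h.1 f hf).1, hs (h.1 f hf).2⟩, h.2⟩

theorem Lg.mono {D E : Set Seq} (h : Lg D) (hs : D ⊆ E) : Lg E :=
  h.elim fun θ hθ => ⟨θ, hθ.mono hs⟩

theorem Emb.comp {θ ψ : Seq → Seq} {D : Set Seq} {E : Set Seq} (h : Emb θ D) (hp : Emb ψ E) :
    Emb (fun x => θ (ψ x)) D :=
  ⟨fun f hf => h.1 _ (hp.1 f hf).1, fun f hf g hg hfg =>
    h.2 _ (hp.1 f hf).1 _ (hp.1 g hg).1 (hp.2 f hf g hg hfg)⟩

theorem Dn.mono {X Y : Set Seq} {m : ℕ} {u : Nod} (h : Dn X m u) (hs : X ⊆ Y) : Dn Y m u :=
  fun u' h1 h2 => (h u' h1 h2).elim fun y hy => ⟨y, hy.1, hs hy.2.1, hy.2.2⟩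

theorem Dn.up {X : Set Seq} {m : ℕ} {u v : Nod} (h : Dn X m u) (hs : Le u v) : Dn X m v :=
  fun u' h1 h2 => h u' (hs.trans h1) h2

theorem lexlt_trans {f g h : Seq} (h1 : lexlt f g) (h2 : lexlt g h) : lexlt f h := by
  obtain ⟨ν, a1, b1, c1⟩ := h1
  obtain ⟨μ, a2, b2, c2⟩ := h2
  rcases lt_trichotomy ν μ with hlt | heq | hgt
  · exact ⟨ν, fun κ hκ => (a1 κ hκ).trans (a2 κ (hκ.trans hlt)), b1, (a2 ν hlt).symm.trans c1⟩
  · subst heq
    rw [c1] at b2
    exact absurd b2 (by decide)
  · exact ⟨μ, fun κ hκ => (a1 κ (hκ.trans hgt)).trans (a2 κ hκ), (a1 μ hgt).trans b2, c2⟩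

theorem lexlt_irrefl (f : Seq) : ¬ lexlt f f := by
  rintro ⟨ν, -, b, c⟩
  rw [b] at c
  exact absurd c (by decide)

theorem lexlt_total {f g : Seq} (h : f ≠ g) : lexlt f g ∨ lexlt g f := by
  classical
  have hne : {ν | f ν ≠ g ν}.Nonempty := by
    by_contra hc
    apply h
    funext ν
    by_contra hν
    exact hc ⟨ν, hν⟩
  have hmin := WellFounded.min_mem (wellFounded_lt (α := Ordinal.{0})) _ hne
  set ν := WellFounded.min (wellFounded_lt (α := Ordinal.{0})) {ν | f ν ≠ g ν} hne with hν
  have hbel : ∀ μ, μ < ν → f μ = g μ := by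
    intro μ hμ
    by_contra hc
    exact WellFounded.not_lt_min (wellFounded_lt (α := Ordinal.{0})) {ν | f ν ≠ g ν} hc hμ
  have hd : f ν ≠ g ν := hmin
  cases hf : f ν <;> cases hg : g ν
  · rw [hf, hg] at hd; exact absurd rfl hd
  · exact Or.inl ⟨ν, hbel, hf, hg⟩
  · exact Or.inr ⟨ν, fun μ hμ => (hbel μ hμ).symm, hg, hf⟩
  · rw [hf, hg] at hd; exact absurd rfl hd

end Pool.Agent.H.MP_353193_lc.SM
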