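import Pool.Agent.H.MP_353193_lc.SM.Bld

/-!
# MP_353193_lc, SM: first differences (definitions and overview of the stronger form)

THEOREM (ZFC). Let `n` be fixed and `F x` a set of sequences for every `x` in `R omω` such that at most `aleph n` ordinals `δ` before the end of the
support of `x` are first differences of `x` and a member of `F x` (`Sp x y δ`, `y ∈ F x`; `DF F x` is the set of these `δ`). Then there is a
strictly increasing `φ : R omω → R omω` with `φ g ∉ F (φ f)` for `f ≠ g`. (The sets `F x` may have the cardinality of `R omω`.)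

PROOF. As for `free_copy` (Df.lean), with copies `θ` that respect first differences (`EmbT`), so that the bound for `DF` is inherited
by the set mapping pulled back along `θ` (`DF_card`).
-/

set_option autoImplicit false

open Cardinal Ordinal Set

namespace Pool.Agent.H.MP_353193_lc.SM

/-- `δ` is the first difference of `x` and `y`, and `x` has a digit 1 at or after `δ`. -/
def Sp (x y : Seq) (δ : Ordinal.{0}) : Prop :=
  (∃ ν, δ ≤ ν ∧ x ν = true) ∧ (∀ μ, μ < δ → y μ = x μ) ∧ y δ ≠ x δ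

/-- Copy maps that respect first differences. -/
def EmbT (θ : Seq → Seq) (D : Set Seq) : Prop :=
  Emb θ D ∧ (∀ x ∈ R omω, ∀ y ∈ R omω, ∀ δ, Sp x y δ → ∃ ε, Sp (θ x) (θ y) ε) ∧
    ∀ x ∈ R omω, ∀ y ∈ R omω, ∀ y' ∈ R omω, ∀ δ δ' ε, Sp x y δ → Sp x y' δ' →
      Sp (θ x) (θ y) ε → Sp (θ x) (θ y') ε → δ = δ'

/-- `D` contains a copy of `R omω` (by a map that respects first differences). -/
def LgT (D : Set Seq) : Prop := ∃ θ, EmbT θ D

/-- The first differences of `x` with the members of `F x`, before the end of the support of `x`. -/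
def DF (F : Seq → Set Seq) (x : Seq) : Set Ordinal.{0} :=
  {δ | ∃ y ∈ F x, y ∈ R omω ∧ Sp x y δ}

theorem Sp.unique {x y : Seq} {δ ε : Ordinal.{0}} (h1 : Sp x y δ) (h2 : Sp x y ε) : δ = ε := by
  rcases lt_trichotomy δ ε with h | h | h
  · exact absurd (h2.2.1 δ h) h1.2.2
  · exact h
  · exact absurd (h1.2.1 ε h) h2.2.2

theorem EmbT.mono {θ : Seq → Seq} {D E : Set Seq} (h : EmbT θ D) (hs : D ⊆ E) : EmbT θ E :=
  ⟨h.1.mono hs, h.2⟩

theorem LgT.mono {D E : Set Seq} (h : LgT D) (hs : D ⊆ E) : LgT E :=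
  h.elim fun θ hθ => ⟨θ, hθ.mono hs⟩

theorem EmbT.comp {θ ψ : Seq → Seq} {D E : Set Seq} (h : EmbT θ D) (hp : EmbT ψ E) :
    EmbT (fun x => θ (ψ x)) D := by
  refine ⟨h.1.comp hp.1, fun x hx y hy δ hd => ?_, fun x hx y hy y' hy' δ δ' ε h1 h2 h3 h4 => ?_⟩
  · obtain ⟨ε, he⟩ := hp.2.1 x hx y hy δ hd
    exact h.2.1 _ (hp.1.1 x hx).1 _ (hp.1.1 y hy).1 ε he
  · obtain ⟨ε1, e1⟩ := hp.2.1 x hx y hy δ h1
    obtain ⟨ε2, e2⟩ := hp.2.1 x hx y' hy' δ' h2
    have e3 : ε1 = ε2 := h.2.2 _ (hp.1.1 x hx).1 _ (hp.1.1 y hy).1 _ (hp.1.1 y' hy').1 _ _ ε e1 e2 h3 h4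
    rw [← e3] at e2
    exact hp.2.2 x hx y hy y' hy' δ δ' ε1 h1 h2 e1 e2

theorem EmbT.id : EmbT (fun x => x) univ :=
  ⟨⟨fun f hf => ⟨hf, trivial⟩, fun f _ g _ h => h⟩, fun x _ y _ δ h => ⟨δ, h⟩,
    fun x _ y _ y' _ δ δ' ε h1 h2 h3 h4 => (h1.unique h3).trans (h4.unique h2)⟩

/-- The set mapping pulled back along `ψ`. -/
def PB (F : Seq → Set Seq) (ψ : Seq → Seq) (x : Seq) : Set Seq :=
  {x' | x' ∈ R omω ∧ ψ x' ∈ F (ψ x)}

theorem DF_card {F : Seq → Set Seq} {ψ : Seq → Seq} {D : Set Seq} (h : EmbT ψ D) {x : Seq}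
    (hx : x ∈ R omω) : #(DF (PB F ψ) x) ≤ #(DF F (ψ x)) := by
  have key : ∀ δ : DF (PB F ψ) x, ∃ ε : DF F (ψ x), ∃ y ∈ R omω, Sp x y δ.1 ∧ Sp (ψ x) (ψ y) ε.1 := by
    rintro ⟨δ, y, hy, hyR, hd⟩
    obtain ⟨ε, he⟩ := h.2.1 x hx y hyR δ hd
    exact ⟨⟨ε, ψ y, hy.2, (h.1.1 y hyR).1, he⟩, y, hyR, hd, he⟩
  choose e he using key
  refine Cardinal.mk_le_of_injective (f := e) fun a b hab => ?_
  obtain ⟨y, hy, h1, h2⟩ := he a
  obtain ⟨y', hy', h3, h4⟩ := he b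
  rw [← hab] at h4
  exact Subtype.ext (h.2.2 x hx y hy y' hy' _ _ _ h1 h3 h2 h4)

end Pool.Agent.H.MP_353193_lc.SM
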