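import Pool.Agent.H.MP_353193_lc.SM.OrA

/-!
# OrB: orientations (Erdos-Hajnal)

Strong induction on the cardinality of `V` (for all `V : Type u` and all graphs at once). If `#V ≤ κ`, take `F x = univ`. Otherwise let `o = (#V).ord`, `a` a bijection of `o.ToType` (or of the ordinals `< o`)
with `V`, `C ξ = cl {a η | η < ξ}` for `ξ < o` or `ξ ≤ o`: increasing, closed, `#(C ξ) ≤ max κ #ξ < #V`, union `V` (`a ξ ∈ C (ξ + 1)`; `o` is a limit ordinal). Let `ρ x` be the least `ξ` with `x ∈ C ξ`. The union of the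
`C η`, `η < ρ x`, is closed (a finite subset of an increasing union lies in one of the sets) and does not contain `x`, so
`x` has fewer than `r` neighbours `y` with `ρ y < ρ x` (a finite set: otherwise a subset with `r` elements). The layer `L = {y | ρ y = ξ}` is contained in `C ξ`, so it has fewer than
`#V` elements and the induction hypothesis applies to the induced graph on the subtype `L` (`G.comap Subtype.val` or `G.induce`; the common neighbours of `r`
points of the layer inject into those in `V`). `F x = {y | G.Adj x y ∧ ρ y < ρ x} ∪ (the image of the set of the layer of x)`. (For `r = 0`: `#V ≤ κ`.)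
-/

set_option autoImplicit false

open Cardinal Ordinal Set

universe u

namespace Pool.Agent.H.MP_353193_lc.SM

private theorem OrB_fin {V ι : Type u} [LinearOrder ι] (G : SimpleGraph V) (r : ℕ) (C : ι → Set V)
    (hC : ∀ i j, i ≤ j → C i ⊆ C j) (hcl : ∀ i, Cls G r (C i)) (ρ : V → ι) (h1 : ∀ x, x ∈ C (ρ x))
    (h2 : ∀ x i, x ∈ C i → ρ x ≤ i) (x : V) : {y | G.Adj x y ∧ ρ y < ρ x}.Finite := by
  classical
  by_contra hinf'
  have hinf : {y | G.Adj x y ∧ ρ y < ρ x}.Infinite := hinf'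
  obtain ⟨s, hs, hcard⟩ := hinf.exists_subset_card_eq r
  obtain ⟨y0, hy0⟩ := hinf.nonempty
  obtain ⟨y1, hy1, hmax⟩ := Finset.exists_max_image (insert y0 s) ρ ⟨y0, Finset.mem_insert_self _ _⟩
  have hy1' : ρ y1 < ρ x := by
    rcases Finset.mem_insert.1 hy1 with rfl | h
    · exact hy0.2
    · exact (hs h).2
  have hx : x ∈ C (ρ y1) := by
    refine hcl (ρ y1) s hcard (fun y hy => ?_) x (fun y hy => (hs hy).1)
    exact hC _ _ (hmax y (Finset.mem_insert_of_mem hy)) (h1 y)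
  exact absurd (h2 x _ hx) (not_le.2 hy1')

theorem orient (r : ℕ) (κ : Cardinal.{u}) (hκ : ℵ₀ ≤ κ) {V : Type u} (G : SimpleGraph V)
    (h : ∀ s : Finset V, s.card = r → #{x // ∀ y ∈ s, G.Adj x y} ≤ κ) :
    ∃ F : V → Set V, (∀ x, #(F x) ≤ κ) ∧ ∀ x y, G.Adj x y → y ∈ F x ∨ x ∈ F y := by
  classical
  suffices key : ∀ μ : Cardinal.{u}, ∀ (V : Type u) (G : SimpleGraph V), #V = μ →
      (∀ s : Finset V, s.card = r → #{x // ∀ y ∈ s, G.Adj x y} ≤ κ) →
      ∃ F : V → Set V, (∀ x, #(F x) ≤ κ) ∧ ∀ x y, G.Adj x y → y ∈ F x ∨ x ∈ F y from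
    key _ V G rfl h
  clear h G V
  intro μ
  induction μ using WellFoundedLT.induction with
  | _ μ IH =>
  intro V G hV h
  rcases le_or_gt (#V) κ with hle | hlt
  · exact ⟨fun _ => univ, fun _ => by rw [mk_univ]; exact hle, fun _ _ _ => Or.inl (mem_univ _)⟩
  obtain ⟨cl, cl1, cl2, cl3, cl4⟩ := exists_cl G r κ hκ h
  obtain ⟨e⟩ : Nonempty ((#V).ord.ToType ≃ V) := Cardinal.eq.1 (mk_ord_toType _)
  obtain ⟨C, hCdef⟩ : ∃ C : (#V).ord.ToType → Set V, ∀ i, C i = cl (e '' Iic i) := ⟨_, fun _ => rfl⟩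
  have hCmono : ∀ i j, i ≤ j → C i ⊆ C j := fun i j hij => by
    rw [hCdef, hCdef]
    exact cl2 _ _ (image_mono (Iic_subset_Iic.2 hij))
  have hCu : ∀ x, ∃ i, x ∈ C i := fun x => ⟨e.symm x, by
    rw [hCdef]
    exact cl1 _ ⟨e.symm x, mem_Iic.2 (le_refl _), e.apply_symm_apply x⟩⟩
  have hCc : ∀ i, #(C i) < #V := by
    intro i
    have a0 : #(Iio i) < #V := by simpa using mk_Iio_lt i
    have a1 : #(e '' Iic i : Set V) < #V := by
      refine lt_of_le_of_lt mk_image_le ?_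
      rw [show Iic i = insert i (Iio i) from Iio_insert.symm]
      refine lt_of_le_of_lt mk_insert_le ?_
      exact add_lt_of_lt (hκ.trans hlt.le) a0 (one_lt_aleph0.trans_le (hκ.trans hlt.le))
    rw [hCdef]
    exact lt_of_le_of_lt (cl4 _) (max_lt hlt a1)
  have hρ : ∀ x, ∃ i, x ∈ C i ∧ ∀ j, x ∈ C j → i ≤ j := by
    intro x
    obtain ⟨i, hi, hmin⟩ := WellFounded.has_min
      (wellFounded_lt : WellFounded ((· < ·) : (#V).ord.ToType → (#V).ord.ToType → Prop))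
      {i | x ∈ C i} (hCu x)
    exact ⟨i, hi, fun j hj => not_lt.1 (hmin j hj)⟩
  choose ρ h1 h2 using hρ
  have IH' : ∀ i, ∃ F : {y // ρ y = i} → Set {y // ρ y = i}, (∀ x, #(F x) ≤ κ) ∧
      ∀ x y, G.Adj x.1 y.1 → y ∈ F x ∨ x ∈ F y := by
    intro i
    refine IH (#{y // ρ y = i}) ?_ _ (G.comap Subtype.val) rfl ?_
    · rw [← hV]
      exact lt_of_le_of_lt (mk_subtype_le_of_subset (q := fun y => y ∈ C i)
        (fun y hy => hy ▸ h1 y)) (hCc i)
    · intro s hs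
      refine le_trans ?_ (h (s.map (Function.Embedding.subtype _)) (by rw [Finset.card_map, hs]))
      refine mk_le_of_injective (f := fun x => ⟨x.1.1, ?_⟩) ?_
      · intro y hy
        obtain ⟨z, hz, rfl⟩ := Finset.mem_map.1 hy
        exact x.2 z hz
      · intro a b hab
        exact Subtype.ext (Subtype.ext (Subtype.mk.inj hab))
  choose Fi hFi1 hFi2 using IH'
  refine ⟨fun a => {y | G.Adj a y ∧ ρ y < ρ a} ∪
    {b | ∃ i, ∃ (ha : ρ a = i) (hb : ρ b = i), (⟨b, hb⟩ : {y // ρ y = i}) ∈ Fi i ⟨a, ha⟩},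
    fun a => ?_, fun a b hab => ?_⟩
  · refine le_trans (mk_union_le _ _) (add_le_of_le hκ ?_ ?_)
    · exact le_trans (lt_aleph0_iff_set_finite.2
        (OrB_fin G r C hCmono (fun i => by rw [hCdef]; exact cl3 _) ρ h1 h2 a)).le hκ
    · have hsub : {b | ∃ i, ∃ (ha : ρ a = i) (hb : ρ b = i),
          (⟨b, hb⟩ : {y // ρ y = i}) ∈ Fi i ⟨a, ha⟩} ⊆ Subtype.val '' (Fi (ρ a) ⟨a, rfl⟩) := by
        rintro b ⟨i, rfl, hb, hm⟩
        exact ⟨⟨b, hb⟩, hm, rfl⟩
      exact le_trans (mk_le_mk_of_subset hsub) (le_trans mk_image_le (hFi1 _ _))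
  · rcases lt_trichotomy (ρ a) (ρ b) with hl | heq | hg
    · exact Or.inr (Or.inl ⟨hab.symm, hl⟩)
    · rcases hFi2 (ρ b) ⟨a, heq⟩ ⟨b, rfl⟩ hab with h3 | h3
      · exact Or.inl (Or.inr ⟨ρ b, heq, rfl, h3⟩)
      · exact Or.inr (Or.inr ⟨ρ b, rfl, heq, h3⟩)
    · exact Or.inl (Or.inl ⟨hab, hg⟩)

end Pool.Agent.H.MP_353193_lc.SM
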