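import Pool.Agent.H.MP_353193_lc.SM.Bld
import Pool.Agent.H.MP_353193_lc.SM.OrB

/-!
# Fin: graphs without `K_{r, aleph (n + 1)}`

Apply `orient` to the graph induced on the subtype `{x // x ∈ R omω}`, `κ = aleph n` (`Cardinal.{1}`). If some `s` with `r` elements had more than `aleph n` common neighbours in `R omω`, this
would be a forbidden pair `A`, `B`. `F x = image of the set of x` for `x ∈ R omω`, empty otherwise; `free_copy`. (`G.Adj (φ f) (φ f)` is false.)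
-/

set_option autoImplicit false

open Cardinal Ordinal Set

namespace Pool.Agent.H.MP_353193_lc.SM

theorem main_graph (r n : ℕ) (G : SimpleGraph Seq)
    (h : ∀ (A : Finset Seq) (B : Set Seq), A.card = r → (∀ a ∈ A, a ∈ R omω) → B ⊆ R omω →
      (∀ a ∈ A, ∀ b ∈ B, G.Adj a b) → #B < Cardinal.aleph (n : Ordinal.{1})) :
    ∃ φ : Seq → Seq, Emb φ univ ∧ ∀ f ∈ R omω, ∀ g ∈ R omω, ¬ G.Adj (φ f) (φ g) := by
  classical
  have h1 : ∀ s : Finset {x : Seq // x ∈ R omω}, s.card = r →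
      #{x : {x : Seq // x ∈ R omω} // ∀ y ∈ s, (G.comap Subtype.val).Adj x y} ≤
        Cardinal.aleph (n : Ordinal.{1}) := by
    intro s hs
    obtain ⟨B, hB⟩ : ∃ B : Set {x : Seq // x ∈ R omω},
        B = {x | ∀ y ∈ s, (G.comap Subtype.val).Adj x y} := ⟨_, rfl⟩
    have h2 : #((Subtype.val '' B : Set Seq)) < Cardinal.aleph (n : Ordinal.{1}) := by
      refine h (s.map (Function.Embedding.subtype _)) (Subtype.val '' B) ?_ ?_ ?_ ?_
      · rw [Finset.card_map, hs]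
      · intro a ha
        obtain ⟨a', -, rfl⟩ := Finset.mem_map.1 ha
        exact a'.2
      · rintro _ ⟨b, -, rfl⟩
        exact b.2
      · rintro a ha _ ⟨b, hb, rfl⟩
        obtain ⟨a', ha', rfl⟩ := Finset.mem_map.1 ha
        rw [hB] at hb
        exact (hb a' ha').symm
    rw [mk_image_eq Subtype.val_injective, hB] at h2
    exact h2.le
  obtain ⟨F', hF1, hF2⟩ := orient r (Cardinal.aleph (n : Ordinal.{1})) (aleph0_le_aleph _)
    (G.comap Subtype.val) h1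
  obtain ⟨F, hF⟩ : ∃ F : Seq → Set Seq, F = fun x => {z | ∃ (hx : x ∈ R omω)
      (y : {x : Seq // x ∈ R omω}), y ∈ F' ⟨x, hx⟩ ∧ z = y.1} := ⟨_, rfl⟩
  obtain ⟨φ, hφ1, hφ2⟩ := free_copy n F (by
    intro y hy
    have h3 : F y ⊆ Subtype.val '' F' ⟨y, hy⟩ := by
      intro z hz
      rw [hF] at hz
      obtain ⟨hx, w, hw, rfl⟩ := hz
      exact ⟨w, hw, rfl⟩
    exact (mk_le_mk_of_subset h3).trans (mk_image_le.trans (hF1 _)))
  refine ⟨φ, hφ1, fun f hf g hg hadj => ?_⟩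
  have hne : f ≠ g := by
    rintro rfl
    exact G.loopless.irrefl _ hadj
  rcases hF2 ⟨φ f, (hφ1.1 f hf).1⟩ ⟨φ g, (hφ1.1 g hg).1⟩ hadj with h4 | h4
  · refine hφ2 f hf g hg hne ?_
    rw [hF]
    exact ⟨(hφ1.1 f hf).1, _, h4, rfl⟩
  · refine hφ2 g hg f hf hne.symm ?_
    rw [hF]
    exact ⟨(hφ1.1 g hg).1, _, h4, rfl⟩

end Pool.Agent.H.MP_353193_lc.SM
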