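import Pool.Agent.H.MP_353193_lc.SM.Fin
import Pool.Agent.H.MP_353193_lc.OC.Ind

/-!
# Fn2: one copy that is free for `F` and independent in `G`, with a finite colouring

* `main_both`: `free_copy` for the union of `F` and the orientation of `G`.
* `main_all`: `OC.ind_fin` gives a copy of one colour; pull `F` and `G` back along it.
-/

set_option autoImplicit false

open Cardinal Ordinal Set

namespace Pool.Agent.H.MP_353193_lc.SM

theorem main_both (r n : ℕ) (F : Seq → Set Seq)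
    (hF : ∀ y ∈ R omω, #(F y) ≤ Cardinal.aleph (n : Ordinal.{1})) (G : SimpleGraph Seq)
    (h : ∀ (A : Finset Seq) (B : Set Seq), A.card = r → (∀ a ∈ A, a ∈ R omω) → B ⊆ R omω →
      (∀ a ∈ A, ∀ b ∈ B, G.Adj a b) → #B < Cardinal.aleph (n : Ordinal.{1})) :
    ∃ φ : Seq → Seq, Emb φ univ ∧ (∀ f ∈ R omω, ∀ g ∈ R omω, f ≠ g → φ g ∉ F (φ f)) ∧
      ∀ f ∈ R omω, ∀ g ∈ R omω, ¬ G.Adj (φ f) (φ g) := by
  classical
  have hκ : ℵ₀ ≤ Cardinal.aleph (n : Ordinal.{1}) := Cardinal.aleph0_le_aleph _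
  obtain ⟨F1, hF1, hF2⟩ := orient r (Cardinal.aleph (n : Ordinal.{1})) hκ
    (G.comap (Subtype.val : {x : Seq // x ∈ R omω} → Seq)) (by
      intro s hs
      have h1 := h (s.map (Function.Embedding.subtype _))
        (Subtype.val '' {x : {x : Seq // x ∈ R omω} | ∀ y ∈ s, (G.comap (Subtype.val : {x : Seq // x ∈ R omω} → Seq)).Adj x y})
        (by rw [Finset.card_map]; exact hs)
        (by
          intro a ha
          obtain ⟨b, -, rfl⟩ := Finset.mem_map.1 ha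
          exact b.2)
        (by
          rintro _ ⟨x, -, rfl⟩
          exact x.2)
        (by
          intro a ha b hb
          obtain ⟨a', ha', rfl⟩ := Finset.mem_map.1 ha
          obtain ⟨b', hb', rfl⟩ := hb
          exact (hb' a' ha').symm)
      rw [Cardinal.mk_image_eq Subtype.val_injective] at h1
      exact h1.le)
  obtain ⟨φ, hφ, hfree⟩ := free_copy n
    (fun x => F x ∪ (if hx : x ∈ R omω then Subtype.val '' F1 ⟨x, hx⟩ else ∅)) (by
      intro y hy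
      simp only [hy, dite_true]
      refine (Cardinal.mk_union_le _ _).trans ?_
      exact Cardinal.add_le_of_le hκ (hF y hy) ((Cardinal.mk_image_le).trans (hF1 ⟨y, hy⟩)))
  refine ⟨φ, hφ, fun f hf g hg hne hm => hfree f hf g hg hne (Or.inl hm), fun f hf g hg hadj => ?_⟩
  have hne : f ≠ g := by
    rintro rfl
    exact G.loopless.irrefl _ hadj
  have hf' := (hφ.1 f hf).1
  have hg' := (hφ.1 g hg).1
  rcases hF2 ⟨φ f, hf'⟩ ⟨φ g, hg'⟩ hadj with h1 | h1
  · apply hfree f hf g hg hne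
    refine Or.inr ?_
    simp only [hf', dite_true]
    exact ⟨_, h1, rfl⟩
  · apply hfree g hg f hf hne.symm
    refine Or.inr ?_
    simp only [hg', dite_true]
    exact ⟨_, h1, rfl⟩

theorem Fn2_inj {ψ : Seq → Seq} (h : ∀ f ∈ R omω, ∀ g ∈ R omω, lexlt f g → lexlt (ψ f) (ψ g)) :
    Set.InjOn ψ (R omω) := by
  intro f hf g hg hfg
  by_contra hne
  rcases SM.lexlt_total hne with h1 | h1
  · exact SM.lexlt_irrefl _ (hfg ▸ h f hf g hg h1)
  · exact SM.lexlt_irrefl _ (hfg ▸ h g hg f hf h1)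

theorem main_all (k r n : ℕ) (c : Seq → Fin k) (F : Seq → Set Seq)
    (hF : ∀ y ∈ R omω, #(F y) ≤ Cardinal.aleph (n : Ordinal.{1})) (G : SimpleGraph Seq)
    (h : ∀ (i : Fin k) (A : Finset Seq) (B : Set Seq), A.card = r →
      (∀ a ∈ A, a ∈ R omω ∧ c a = i) → (∀ b ∈ B, b ∈ R omω ∧ c b = i) →
      (∀ a ∈ A, ∀ b ∈ B, G.Adj a b) → #B < Cardinal.aleph (n : Ordinal.{1})) :
    ∃ φ : Seq → Seq, Emb φ univ ∧ (∀ f ∈ R omω, ∀ g ∈ R omω, f ≠ g → φ g ∉ F (φ f)) ∧
      ∀ f ∈ R omω, ∀ g ∈ R omω, ¬ G.Adj (φ f) (φ g) := by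
  classical
  have hid : OC.Cpy (R omω) := ⟨fun x => x, fun f hf => hf, fun f _ g _ hfg => hfg⟩
  obtain ⟨i, ψ, hψ1, hψ2⟩ := OC.ind_fin k c hid
  have hinj := Fn2_inj hψ2
  obtain ⟨φ, hφ, hfree, hind⟩ := main_both r n
    (fun x => {x' | x' ∈ R omω ∧ ψ x' ∈ F (ψ x)}) (by
      intro y hy
      have hy' := (hψ1 y hy).1
      refine le_trans ?_ (hF _ hy')
      have h1 : Set.InjOn ψ {x' | x' ∈ R omω ∧ ψ x' ∈ F (ψ y)} := fun a ha b hb hab => hinj ha.1 hb.1 hab
      rw [← Cardinal.mk_image_eq_of_injOn _ _ h1]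
      refine Cardinal.mk_le_mk_of_subset ?_
      rintro _ ⟨x', hx', rfl⟩
      exact hx'.2)
    (SimpleGraph.mk (fun x y => x ∈ R omω ∧ y ∈ R omω ∧ G.Adj (ψ x) (ψ y))
      ⟨fun x y hxy => ⟨hxy.2.1, hxy.1, hxy.2.2.symm⟩⟩
      ⟨fun x hx => G.loopless.irrefl _ hx.2.2⟩)
    (by
      intro A B hA hAR hBR hAB
      have hinjA : Set.InjOn ψ (A : Set Seq) := fun a ha b hb hab => hinj (hAR a ha) (hAR b hb) hab
      have hinjB : Set.InjOn ψ B := fun a ha b hb hab => hinj (hBR ha) (hBR hb) hab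
      have h1 := h i (A.image ψ) (ψ '' B) (by rw [Finset.card_image_of_injOn hinjA]; exact hA)
        (by
          intro a ha
          obtain ⟨a', ha', rfl⟩ := Finset.mem_image.1 ha
          exact hψ1 a' (hAR a' ha'))
        (by
          rintro _ ⟨b, hb, rfl⟩
          exact hψ1 b (hBR hb))
        (by
          intro a ha b hb
          obtain ⟨a', ha', rfl⟩ := Finset.mem_image.1 ha
          obtain ⟨b', hb', rfl⟩ := hb
          exact (hAB a' ha' b' hb').2.2)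
      rwa [Cardinal.mk_image_eq_of_injOn _ _ hinjB] at h1)
  refine ⟨fun x => ψ (φ x), ⟨fun f hf => ⟨(hψ1 _ (hφ.1 f hf).1).1, trivial⟩, fun f hf g hg hfg =>
    hψ2 _ (hφ.1 f hf).1 _ (hφ.1 g hg).1 (hφ.2 f hf g hg hfg)⟩, ?_, ?_⟩
  · intro f hf g hg hne hm
    exact hfree f hf g hg hne ⟨(hφ.1 g hg).1, hm⟩
  · intro f hf g hg hadj
    exact hind f hf g hg ⟨(hφ.1 f hf).1, (hφ.1 g hg).1, hadj⟩

end Pool.Agent.H.MP_353193_lc.SM
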