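import Pool.Agent.H.MP_353193_lc.SM.IndT

/-!
# InfT: finite colourings

* `indT2`: as `OC.ind2` (OC/Ind.lean) with `fibT`, `trvT` (change `w x` outside `R omω` freely; `w x` for `x ∈ R omω` is in `R omω`).
* `ind_finT`: as `OC.ind_fin`: induction on `r` (for colourings with values `< r` on the range), `indT2` for `{x | c (φ x) = r}` and its complement, `EmbT.comp`.
-/

set_option autoImplicit false

open Cardinal Ordinal Set

namespace Pool.Agent.H.MP_353193_lc.SM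

private theorem InfT_dom {θ : Seq → Seq} {D E : Set Seq} (h : EmbT θ D)
    (hE : ∀ x ∈ R omω, θ x ∈ E) : EmbT θ E :=
  ⟨⟨fun f hf => ⟨(h.1.1 f hf).1, hE f hf⟩, h.1.2⟩, h.2⟩

theorem indT2 {A B : Set Seq} (h : R omω ⊆ A ∪ B) : LgT A ∨ LgT B := by
  by_cases h1 : ∃ x ∈ R omω, ∀ y ∈ R omω, OC.cd x y ∈ A
  · obtain ⟨x, hx, hxA⟩ := h1
    exact Or.inl ⟨_, InfT_dom (fibT hx) hxA⟩
  · have h2 : ∀ x, ∃ y, x ∈ R omω → y ∈ R omω ∧ OC.cd x y ∉ A := by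
      intro x
      by_cases hx : x ∈ R omω
      · by_contra hcon
        refine h1 ⟨x, hx, fun y hy => ?_⟩
        by_contra hyA
        exact hcon ⟨y, fun _ => ⟨hy, hyA⟩⟩
      · exact ⟨x, fun hx' => absurd hx' hx⟩
    choose w hw using h2
    have h3 := trvT (w := w) fun x hx => (hw x hx).1
    exact Or.inr ⟨_, InfT_dom h3 fun f hf => (h (h3.1.1 f hf).1).resolve_left (hw f hf).2⟩

private theorem InfT_nat (r : ℕ) (c : Seq → ℕ) : ∀ {D : Set Seq}, LgT D → (∀ x ∈ D, c x < r) →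
    ∃ i < r, LgT {x | x ∈ D ∧ c x = i} := by
  induction r with
  | zero =>
    intro D hD hc
    obtain ⟨φ, hφ⟩ := hD
    have h1 : #(R omω) ≠ 0 := (lt_trans aleph0_pos OC.aleph0_lt_mk_R).ne'
    obtain ⟨⟨f, hf⟩⟩ := Cardinal.mk_ne_zero_iff.1 h1
    exact absurd (hc _ (hφ.1.1 f hf).2) (Nat.not_lt_zero _)
  | succ r ih =>
    intro D hD hc
    obtain ⟨φ, hφ⟩ := hD
    have h1 : R omω ⊆ {x | c (φ x) = r} ∪ {x | c (φ x) ≠ r} := fun x _ => em (c (φ x) = r)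
    rcases indT2 h1 with ⟨ψ, hψ⟩ | ⟨ψ, hψ⟩
    · exact ⟨r, Nat.lt_succ_self r, _, InfT_dom (hφ.comp hψ) fun f hf =>
        ⟨((hφ.comp hψ).1.1 f hf).2, (hψ.1.1 f hf).2⟩⟩
    · have h2 : LgT {x | x ∈ D ∧ c x ≠ r} := ⟨_, InfT_dom (hφ.comp hψ) fun f hf =>
        ⟨((hφ.comp hψ).1.1 f hf).2, (hψ.1.1 f hf).2⟩⟩
      obtain ⟨i, hi, χ, hχ⟩ := ih h2
        fun x hx => lt_of_le_of_ne (Nat.lt_succ_iff.1 (hc x hx.1)) hx.2
      exact ⟨i, Nat.lt_succ_of_lt hi, χ, InfT_dom hχ fun f hf =>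
        ⟨(hχ.1.1 f hf).2.1.1, (hχ.1.1 f hf).2.2⟩⟩

theorem ind_finT (r : ℕ) (c : Seq → Fin r) : ∃ i : Fin r, LgT {x | c x = i} := by
  obtain ⟨i, hi, φ, hφ⟩ := InfT_nat r (fun x => (c x : ℕ)) ⟨_, EmbT.id⟩ fun x _ => (c x).isLt
  exact ⟨⟨i, hi⟩, φ, InfT_dom hφ fun f hf => Fin.ext (hφ.1.1 f hf).2.2⟩

end Pool.Agent.H.MP_353193_lc.SM
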