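import Pool.Agent.H.MP_353193_lc.SM.BldT
import Pool.Agent.H.MP_353193_lc.SM.InfT
import Pool.Agent.H.MP_353193_lc.SM.OrB

/-!
# FnT: the final statement (as `main_both`, `main_all` in Fn2.lean)

* `main_bothT`: `free_copyT` for the union of `F` and the orientation `F1` of `G` (`orient`); `DF (F ∪ F1) x ⊆ DF F x ∪ DF F1 x`, `#(DF F1 x) ≤ #(F1 x)` (every `y` has at most one `δ`: `Sp.unique`).
* `main_allT`: `ind_finT` gives a copy of one colour; pull `F` and `G` back along it (`PB`, `DF_card`).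
-/

set_option autoImplicit false

open Cardinal Ordinal Set

namespace Pool.Agent.H.MP_353193_lc.SM

private theorem FnT_card (F : Seq → Set Seq) (x : Seq) : #(DF F x) ≤ #(F x) := by
  have key : ∀ δ : DF F x, ∃ y : F x, Sp x y.1 δ.1 := by
    rintro ⟨δ, y, hy, -, hd⟩
    exact ⟨⟨y, hy⟩, hd⟩
  choose e he using key
  refine Cardinal.mk_le_of_injective (f := e) fun a b hab => ?_
  have h1 := he a
  rw [hab] at h1
  exact Subtype.ext (h1.unique (he b))

theorem main_bothT (r n : ℕ) (F : Seq → Set Seq)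
    (hF : ∀ y ∈ R omω, #(DF F y) ≤ Cardinal.aleph (n : Ordinal.{1})) (G : SimpleGraph Seq)
    (h : ∀ (A : Finset Seq) (B : Set Seq), A.card = r → (∀ a ∈ A, a ∈ R omω) → B ⊆ R omω →
      (∀ a ∈ A, ∀ b ∈ B, G.Adj a b) → #B < Cardinal.aleph (n : Ordinal.{1})) :
    ∃ φ : Seq → Seq, Emb φ univ ∧ (∀ f ∈ R omω, ∀ g ∈ R omω, f ≠ g → φ g ∉ F (φ f)) ∧
      ∀ f ∈ R omω, ∀ g ∈ R omω, ¬ G.Adj (φ f) (φ g) := by
  classical
  have hκ : ℵ₀ ≤ Cardinal.aleph (n : Ordinal.{1}) := Cardinal.aleph0_le_aleph _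
  obtain ⟨F1, hF1, hF2⟩ := orient r (Cardinal.aleph (n : Ordinal.{1})) hκ
    (G.comap (Subtype.val : {x : Seq // x ∈ R omω} → Seq)) (by
      intro s hs
      have h1 := h (s.map (Function.Embedding.subtype _))
        (Subtype.val '' {x : {x : Seq // x ∈ R omω} | ∀ y ∈ s, (G.comap (Subtype.val : {x : Seq // x ∈ R omω} → Seq)).Adj x y})
        (by rw [Finset.card_map]; exact hs)
        (by
          intro a ha
          obtain ⟨b, -, rfl⟩ := Finset.mem_map.1 ha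
          exact b.2)
        (by
          rintro _ ⟨x, -, rfl⟩
          exact x.2)
        (by
          intro a ha b hb
          obtain ⟨a', ha', rfl⟩ := Finset.mem_map.1 ha
          obtain ⟨b', hb', rfl⟩ := hb
          exact (hb' a' ha').symm)
      rw [Cardinal.mk_image_eq Subtype.val_injective] at h1
      exact h1.le)
  set F2 : Seq → Set Seq :=
    fun x => (if hx : x ∈ R omω then Subtype.val '' F1 ⟨x, hx⟩ else ∅) with hF2d
  obtain ⟨φ, hφ, hfree⟩ := free_copyT n (fun x => F x ∪ F2 x) (by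
      intro y hy
      have h1 : DF (fun x => F x ∪ F2 x) y ⊆ DF F y ∪ DF F2 y := by
        rintro δ ⟨z, hz, hzR, hd⟩
        rcases hz with hz | hz
        · exact Or.inl ⟨z, hz, hzR, hd⟩
        · exact Or.inr ⟨z, hz, hzR, hd⟩
      have h2 : #(F2 y) ≤ Cardinal.aleph (n : Ordinal.{1}) := by
        rw [hF2d]
        simp only [hy, dite_true]
        exact (Cardinal.mk_image_le).trans (hF1 ⟨y, hy⟩)
      refine (Cardinal.mk_le_mk_of_subset h1).trans ((Cardinal.mk_union_le _ _).trans ?_)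
      exact Cardinal.add_le_of_le hκ (hF y hy) ((FnT_card F2 y).trans h2))
  refine ⟨φ, hφ, fun f hf g hg hne hm => hfree f hf g hg hne (Or.inl hm), fun f hf g hg hadj => ?_⟩
  have hne : f ≠ g := by
    rintro rfl
    exact G.loopless.irrefl _ hadj
  have hf' := (hφ.1 f hf).1
  have hg' := (hφ.1 g hg).1
  rcases hF2 ⟨φ f, hf'⟩ ⟨φ g, hg'⟩ hadj with h1 | h1
  · apply hfree f hf g hg hne
    refine Or.inr ?_
    rw [hF2d]
    simp only [hf', dite_true]
    exact ⟨_, h1, rfl⟩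
  · apply hfree g hg f hf hne.symm
    refine Or.inr ?_
    rw [hF2d]
    simp only [hg', dite_true]
    exact ⟨_, h1, rfl⟩

private theorem FnT_inj {ψ : Seq → Seq} {D : Set Seq} (h : Emb ψ D) : Set.InjOn ψ (R omω) := by
  intro f hf g hg hfg
  by_contra hne
  rcases SM.lexlt_total hne with h1 | h1
  · exact SM.lexlt_irrefl _ (hfg ▸ h.2 f hf g hg h1)
  · exact SM.lexlt_irrefl _ (hfg ▸ h.2 g hg f hf h1)

theorem main_allT (k r n : ℕ) (c : Seq → Fin k) (F : Seq → Set Seq)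
    (hF : ∀ y ∈ R omω, #(DF F y) ≤ Cardinal.aleph (n : Ordinal.{1})) (G : SimpleGraph Seq)
    (h : ∀ (i : Fin k) (A : Finset Seq) (B : Set Seq), A.card = r →
      (∀ a ∈ A, a ∈ R omω ∧ c a = i) → (∀ b ∈ B, b ∈ R omω ∧ c b = i) →
      (∀ a ∈ A, ∀ b ∈ B, G.Adj a b) → #B < Cardinal.aleph (n : Ordinal.{1})) :
    ∃ φ : Seq → Seq, Emb φ univ ∧ (∀ f ∈ R omω, ∀ g ∈ R omω, f ≠ g → φ g ∉ F (φ f)) ∧
      ∀ f ∈ R omω, ∀ g ∈ R omω, ¬ G.Adj (φ f) (φ g) := by
  classical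
  obtain ⟨i, ψ, hψ⟩ := ind_finT k c
  have hψ1 : ∀ f ∈ R omω, ψ f ∈ R omω ∧ c (ψ f) = i := fun f hf => hψ.1.1 f hf
  have hinj := FnT_inj hψ.1
  obtain ⟨φ, hφ, hfree, hind⟩ := main_bothT r n (PB F ψ)
    (fun y hy => (DF_card hψ hy).trans (hF _ (hψ1 y hy).1))
    (SimpleGraph.mk (fun x y => x ∈ R omω ∧ y ∈ R omω ∧ G.Adj (ψ x) (ψ y))
      ⟨fun x y hxy => ⟨hxy.2.1, hxy.1, hxy.2.2.symm⟩⟩
      ⟨fun x hx => G.loopless.irrefl _ hx.2.2⟩)
    (by
      intro A B hA hAR hBR hAB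
      have hinjA : Set.InjOn ψ (A : Set Seq) := fun a ha b hb hab => hinj (hAR a ha) (hAR b hb) hab
      have hinjB : Set.InjOn ψ B := fun a ha b hb hab => hinj (hBR ha) (hBR hb) hab
      have h1 := h i (A.image ψ) (ψ '' B) (by rw [Finset.card_image_of_injOn hinjA]; exact hA)
        (by
          intro a ha
          obtain ⟨a', ha', rfl⟩ := Finset.mem_image.1 ha
          exact hψ1 a' (hAR a' ha'))
        (by
          rintro _ ⟨b, hb, rfl⟩
          exact hψ1 b (hBR hb))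
        (by
          intro a ha b hb
          obtain ⟨a', ha', rfl⟩ := Finset.mem_image.1 ha
          obtain ⟨b', hb', rfl⟩ := hb
          exact (hAB a' ha' b' hb').2.2)
      rwa [Cardinal.mk_image_eq_of_injOn _ _ hinjB] at h1)
  refine ⟨fun x => ψ (φ x), ⟨fun f hf => ⟨(hψ1 _ (hφ.1 f hf).1).1, trivial⟩, fun f hf g hg hfg =>
    hψ.1.2 _ (hφ.1 f hf).1 _ (hφ.1 g hg).1 (hφ.2 f hf g hg hfg)⟩, ?_, ?_⟩
  · intro f hf g hg hne hm
    exact hfree f hf g hg hne ⟨(hφ.1 g hg).1, hm⟩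
  · intro f hf g hg hadj
    exact hind f hf g hg ⟨(hφ.1 f hf).1, (hφ.1 g hg).1, hadj⟩

end Pool.Agent.H.MP_353193_lc.SM
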