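import Pool.Agent.H.MP_353193_lc.SM.BldT
import Pool.Agent.H.MP_353193_lc.SM.InfT
import Pool.Agent.H.MP_353193_lc.SM.OrB

/-!
# FnU: the final statement for families of graphs (as `main_bothT`, `main_allT` in FnT.lean)

* `main_bothU`: `free_copyT` for the union of `F` and the orientations of the graphs `G ∈ Gs` (`orient`, with the `r` of `G`); the
  union of at most `aleph n` sets of out-neighbours with at most `aleph n` elements has at most `aleph n` elements.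
* `main_allU`: `ind_finT` gives a copy of one colour; pull `F` and all `G ∈ Gs` back along it (`PB`, `DF_card`).
-/

set_option autoImplicit false

open Cardinal Ordinal Set

namespace Pool.Agent.H.MP_353193_lc.SM

private theorem FnU_card (F : Seq → Set Seq) (x : Seq) : #(DF F x) ≤ #(F x) := by
  have key : ∀ δ : DF F x, ∃ y : F x, Sp x y.1 δ.1 := by
    rintro ⟨δ, y, hy, -, hd⟩
    exact ⟨⟨y, hy⟩, hd⟩
  choose e he using key
  refine Cardinal.mk_le_of_injective (f := e) fun a b hab => ?_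
  have h1 := he a
  rw [hab] at h1
  exact Subtype.ext (h1.unique (he b))

private theorem FnU_union {ι α : Type 1} (κ : Cardinal.{1}) (hκ : ℵ₀ ≤ κ) (S : ι → Set α)
    (hι : #ι ≤ κ) (hS : ∀ i, #(S i) ≤ κ) : #(⋃ i, S i) ≤ κ := by
  refine Cardinal.mk_iUnion_le_sum_mk.trans ((Cardinal.sum_le_sum _ (fun _ => κ) hS).trans ?_)
  rw [Cardinal.sum_const']
  exact Cardinal.mul_le_of_le hκ hι le_rfl

/-- The orientation of one graph, as a set mapping on all sequences. -/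
private theorem FnU_orient (n : ℕ) (G : SimpleGraph Seq) (r : ℕ)
    (h : ∀ (A : Finset Seq) (B : Set Seq), A.card = r → (∀ a ∈ A, a ∈ R omω) → B ⊆ R omω →
      (∀ a ∈ A, ∀ b ∈ B, G.Adj a b) → #B ≤ Cardinal.aleph (n : Ordinal.{1})) :
    ∃ E : Seq → Set Seq, (∀ x, #(E x) ≤ Cardinal.aleph (n : Ordinal.{1})) ∧
      ∀ x ∈ R omω, ∀ y ∈ R omω, G.Adj x y → y ∈ E x ∨ x ∈ E y := by
  classical
  have hκ : ℵ₀ ≤ Cardinal.aleph (n : Ordinal.{1}) := Cardinal.aleph0_le_aleph _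
  obtain ⟨F1, hF1, hF2⟩ := orient r (Cardinal.aleph (n : Ordinal.{1})) hκ
    (G.comap (Subtype.val : {x : Seq // x ∈ R omω} → Seq)) (by
      intro s hs
      have h1 := h (s.map (Function.Embedding.subtype _))
        (Subtype.val '' {x : {x : Seq // x ∈ R omω} | ∀ y ∈ s, (G.comap (Subtype.val : {x : Seq // x ∈ R omω} → Seq)).Adj x y})
        (by rw [Finset.card_map]; exact hs)
        (by
          intro a ha
          obtain ⟨b, -, rfl⟩ := Finset.mem_map.1 ha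
          exact b.2)
        (by
          rintro _ ⟨x, -, rfl⟩
          exact x.2)
        (by
          intro a ha b hb
          obtain ⟨a', ha', rfl⟩ := Finset.mem_map.1 ha
          obtain ⟨b', hb', rfl⟩ := hb
          exact (hb' a' ha').symm)
      rw [Cardinal.mk_image_eq Subtype.val_injective] at h1
      exact h1)
  refine ⟨fun x => (if hx : x ∈ R omω then Subtype.val '' F1 ⟨x, hx⟩ else ∅), fun x => ?_,
    fun x hx y hy hadj => ?_⟩
  · by_cases hx : x ∈ R omω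
    · simp only [hx, dite_true]
      exact (Cardinal.mk_image_le).trans (hF1 ⟨x, hx⟩)
    · simp only [hx, dite_false]
      rw [Cardinal.mk_eq_zero]
      exact zero_le
  · rcases hF2 ⟨x, hx⟩ ⟨y, hy⟩ hadj with h1 | h1
    · left
      simp only [hx, dite_true]
      exact ⟨_, h1, rfl⟩
    · right
      simp only [hy, dite_true]
      exact ⟨_, h1, rfl⟩

theorem main_bothU (n : ℕ) (F : Seq → Set Seq)
    (hF : ∀ y ∈ R omω, #(DF F y) ≤ Cardinal.aleph (n : Ordinal.{1})) (Gs : Set (SimpleGraph Seq))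
    (hGs : #Gs ≤ Cardinal.aleph (n : Ordinal.{1}))
    (h : ∀ G ∈ Gs, ∃ r : ℕ, ∀ (A : Finset Seq) (B : Set Seq), A.card = r → (∀ a ∈ A, a ∈ R omω) →
      B ⊆ R omω → (∀ a ∈ A, ∀ b ∈ B, G.Adj a b) → #B ≤ Cardinal.aleph (n : Ordinal.{1})) :
    ∃ φ : Seq → Seq, Emb φ univ ∧ (∀ f ∈ R omω, ∀ g ∈ R omω, f ≠ g → φ g ∉ F (φ f)) ∧
      ∀ G ∈ Gs, ∀ f ∈ R omω, ∀ g ∈ R omω, ¬ G.Adj (φ f) (φ g) := by
  classical
  have hκ : ℵ₀ ≤ Cardinal.aleph (n : Ordinal.{1}) := Cardinal.aleph0_le_aleph _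
  have h' : ∀ G : Gs, ∃ E : Seq → Set Seq, (∀ x, #(E x) ≤ Cardinal.aleph (n : Ordinal.{1})) ∧
      ∀ x ∈ R omω, ∀ y ∈ R omω, G.1.Adj x y → y ∈ E x ∨ x ∈ E y := by
    intro G
    obtain ⟨r, hr⟩ := h G.1 G.2
    exact FnU_orient n G.1 r hr
  choose E hE1 hE2 using h'
  set F2 : Seq → Set Seq := fun x => ⋃ G : Gs, E G x with hF2d
  have hF2 : ∀ x, #(F2 x) ≤ Cardinal.aleph (n : Ordinal.{1}) :=
    fun x => FnU_union _ hκ (fun G : Gs => E G x) hGs (fun G => hE1 G x)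
  obtain ⟨φ, hφ, hfree⟩ := free_copyT n (fun x => F x ∪ F2 x) (by
      intro y hy
      have h1 : DF (fun x => F x ∪ F2 x) y ⊆ DF F y ∪ DF F2 y := by
        rintro δ ⟨z, hz, hzR, hd⟩
        rcases hz with hz | hz
        · exact Or.inl ⟨z, hz, hzR, hd⟩
        · exact Or.inr ⟨z, hz, hzR, hd⟩
      refine (Cardinal.mk_le_mk_of_subset h1).trans ((Cardinal.mk_union_le _ _).trans ?_)
      exact Cardinal.add_le_of_le hκ (hF y hy) ((FnU_card F2 y).trans (hF2 y)))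
  refine ⟨φ, hφ, fun f hf g hg hne hm => hfree f hf g hg hne (Or.inl hm),
    fun G hG f hf g hg hadj => ?_⟩
  have hne : f ≠ g := by
    rintro rfl
    exact G.loopless.irrefl _ hadj
  rcases hE2 ⟨G, hG⟩ (φ f) (hφ.1 f hf).1 (φ g) (hφ.1 g hg).1 hadj with h1 | h1
  · exact hfree f hf g hg hne (Or.inr (Set.mem_iUnion.2 ⟨⟨G, hG⟩, h1⟩))
  · exact hfree g hg f hf hne.symm (Or.inr (Set.mem_iUnion.2 ⟨⟨G, hG⟩, h1⟩))

private theorem FnU_inj {ψ : Seq → Seq} {D : Set Seq} (h : Emb ψ D) : Set.InjOn ψ (R omω) := by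
  intro f hf g hg hfg
  by_contra hne
  rcases SM.lexlt_total hne with h1 | h1
  · exact SM.lexlt_irrefl _ (hfg ▸ h.2 f hf g hg h1)
  · exact SM.lexlt_irrefl _ (hfg ▸ h.2 g hg f hf h1)

theorem main_allU (k n : ℕ) (c : Seq → Fin k) (F : Seq → Set Seq)
    (hF : ∀ y ∈ R omω, #(DF F y) ≤ Cardinal.aleph (n : Ordinal.{1})) (Gs : Set (SimpleGraph Seq))
    (hGs : #Gs ≤ Cardinal.aleph (n : Ordinal.{1}))
    (h : ∀ G ∈ Gs, ∃ r : ℕ, ∀ (i : Fin k) (A : Finset Seq) (B : Set Seq), A.card = r →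
      (∀ a ∈ A, a ∈ R omω ∧ c a = i) → (∀ b ∈ B, b ∈ R omω ∧ c b = i) →
      (∀ a ∈ A, ∀ b ∈ B, G.Adj a b) → #B ≤ Cardinal.aleph (n : Ordinal.{1})) :
    ∃ φ : Seq → Seq, Emb φ univ ∧ (∀ f ∈ R omω, ∀ g ∈ R omω, f ≠ g → φ g ∉ F (φ f)) ∧
      ∀ G ∈ Gs, ∀ f ∈ R omω, ∀ g ∈ R omω, ¬ G.Adj (φ f) (φ g) := by
  classical
  obtain ⟨i, ψ, hψ⟩ := ind_finT k c
  have hψ1 : ∀ f ∈ R omω, ψ f ∈ R omω ∧ c (ψ f) = i := fun f hf => hψ.1.1 f hf
  have hinj := FnU_inj hψ.1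
  set P : SimpleGraph Seq → SimpleGraph Seq := fun G =>
    SimpleGraph.mk (fun x y => x ∈ R omω ∧ y ∈ R omω ∧ G.Adj (ψ x) (ψ y))
      ⟨fun x y hxy => ⟨hxy.2.1, hxy.1, hxy.2.2.symm⟩⟩
      ⟨fun x hx => G.loopless.irrefl _ hx.2.2⟩ with hP
  obtain ⟨φ, hφ, hfree, hind⟩ := main_bothU n (PB F ψ)
    (fun y hy => (DF_card hψ hy).trans (hF _ (hψ1 y hy).1)) (P '' Gs)
    (Cardinal.mk_image_le.trans hGs)
    (by
      rintro _ ⟨G, hG, rfl⟩
      obtain ⟨r, hr⟩ := h G hG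
      refine ⟨r, ?_⟩
      intro A B hA hAR hBR hAB
      have hinjA : Set.InjOn ψ (A : Set Seq) := fun a ha b hb hab => hinj (hAR a ha) (hAR b hb) hab
      have hinjB : Set.InjOn ψ B := fun a ha b hb hab => hinj (hBR ha) (hBR hb) hab
      have h1 := hr i (A.image ψ) (ψ '' B) (by rw [Finset.card_image_of_injOn hinjA]; exact hA)
        (by
          intro a ha
          obtain ⟨a', ha', rfl⟩ := Finset.mem_image.1 ha
          exact hψ1 a' (hAR a' ha'))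
        (by
          rintro _ ⟨b, hb, rfl⟩
          exact hψ1 b (hBR hb))
        (by
          intro a ha b hb
          obtain ⟨a', ha', rfl⟩ := Finset.mem_image.1 ha
          obtain ⟨b', hb', rfl⟩ := hb
          exact (hAB a' ha' b' hb').2.2)
      rwa [Cardinal.mk_image_eq_of_injOn _ _ hinjB] at h1)
  refine ⟨fun x => ψ (φ x), ⟨fun f hf => ⟨(hψ1 _ (hφ.1 f hf).1).1, trivial⟩, fun f hf g hg hfg =>
    hψ.1.2 _ (hφ.1 f hf).1 _ (hφ.1 g hg).1 (hφ.2 f hf g hg hfg)⟩, ?_, ?_⟩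
  · intro f hf g hg hne hm
    exact hfree f hf g hg hne ⟨(hφ.1 g hg).1, hm⟩
  · intro G hG f hf g hg hadj
    exact hind (P G) ⟨G, hG, rfl⟩ f hf g hg ⟨(hφ.1 f hf).1, (hφ.1 g hg).1, hadj⟩

end Pool.Agent.H.MP_353193_lc.SM
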