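import Pool.Agent.H.MP_353193_lc.SM.DfT
import Pool.Agent.H.MP_353193_lc.OC.CodB

/-!
# IndT: finite colourings, with maps that respect first differences

* `fibT`: `y ↦ OC.cd x y`, `x ∈ R omω` fixed: `Emb` by `OC.cd_mem`, `OC.cd_lt2`. If `Sp y y' δ` then `Sp (cd x y) (cd x y') (2 * (ln x + δ) + 1)` (`ln = OC.ln`); `Sp.unique`.
* `trvT`: `x ↦ cd x (w x)`, `w x ∈ R omω`: `Emb` by `OC.cd_mem`, `OC.cd_lt1`. Let `Sp x y δ`; so `δ < ln x` (`OC.lt_ln`). If `δ < ln y` then the first difference of the images is `2 * δ + 1` (the even digits `2 ν`, `ν ≤ δ`, are 1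
  for both). If `ln y ≤ δ` then it is `2 * ln y` (the digit is 1 for `x`, 0 for `y`), and `δ` is the least `μ ≥ ln y` with `x μ = true` (`y` vanishes from `ln y` on, `x`, `y` agree below `δ`). The images of `x` have the
  digit 1 at `2 ν + 1` if `x ν = true`. Odd and even ordinals are different; so the same value gives the same `δ`.
* `indT2`: as `OC.ind2` (OC/Ind.lean). `ind_finT`: as `OC.ind_fin`, induction on `r` with `EmbT.comp`.
-/

set_option autoImplicit false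

open Cardinal Ordinal Set

namespace Pool.Agent.H.MP_353193_lc.SM

private theorem IndT_lt {α q : Ordinal.{0}} (h : α < 2 * q) : α / 2 < q :=
  (Ordinal.lt_mul_iff_div_lt two_ne_zero).1 h

private theorem IndT_le {α q : Ordinal.{0}} (h : α < 2 * q + 1) : α / 2 ≤ q := by
  have h1 : α / 2 < Order.succ q := by
    refine IndT_lt (h.trans_le ?_)
    rw [Ordinal.mul_succ]
    gcongr
    exact one_le_two
  exact Order.lt_succ_iff.1 h1

private theorem IndT_odd {α q : Ordinal.{0}} (h : α < 2 * q + 1) (h2 : α % 2 ≠ 0) :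
    α / 2 < q := by
  refine lt_of_le_of_ne (IndT_le h) fun h3 => ?_
  have h4 := Ordinal.div_add_mod α 2
  rw [h3] at h4
  have h5 : 1 ≤ α % 2 := Ordinal.one_le_iff_ne_zero.2 h2
  have h6 : 2 * q + 1 ≤ 2 * q + α % 2 := by gcongr
  rw [h4] at h6
  exact absurd h (not_lt.2 h6)

private theorem IndT_even (x y : Seq) {α : Ordinal.{0}} (h : α % 2 = 0) :
    OC.cd x y α = decide (α / 2 < OC.ln x) := by
  unfold OC.cd
  rw [if_pos h]

private theorem IndT_odd1 (x y : Seq) {α : Ordinal.{0}} (h : α % 2 ≠ 0)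
    (h2 : α / 2 < OC.ln x) : OC.cd x y α = x (α / 2) := by
  unfold OC.cd
  rw [if_neg h, if_pos h2]

private theorem IndT_odd2 (x y : Seq) {α : Ordinal.{0}} (h : α % 2 ≠ 0)
    (h2 : ¬ α / 2 < OC.ln x) : OC.cd x y α = y (α / 2 - OC.ln x) := by
  unfold OC.cd
  rw [if_neg h, if_neg h2]

private theorem IndT_mod (q : Ordinal.{0}) : (2 * q + 1) % 2 ≠ 0 := by
  rw [(OC.two_mul_add_div q).2]
  exact one_ne_zero

private theorem IndT_at1 (x y : Seq) {q : Ordinal.{0}} (h : q < OC.ln x) :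
    OC.cd x y (2 * q + 1) = x q := by
  rw [IndT_odd1 x y (IndT_mod q) (by rw [(OC.two_mul_add_div q).1]; exact h),
    (OC.two_mul_add_div q).1]

private theorem IndT_at2 (x y : Seq) (q : Ordinal.{0}) :
    OC.cd x y (2 * (OC.ln x + q) + 1) = y q := by
  have q4 : ¬ (2 * (OC.ln x + q) + 1) / 2 < OC.ln x := by
    rw [(OC.two_mul_add_div _).1]
    exact not_lt.2 le_self_add
  rw [IndT_odd2 x y (IndT_mod _) q4, (OC.two_mul_add_div _).1, Ordinal.add_sub_cancel]

private theorem IndT_at0 (x y : Seq) (q : Ordinal.{0}) :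
    OC.cd x y (2 * q) = decide (q < OC.ln x) := by
  rw [IndT_even x y (OC.two_mul_div q).2, (OC.two_mul_div q).1]

private theorem IndT_inj1 {a b : Ordinal.{0}} (h : 2 * a + 1 = 2 * b + 1) : a = b := by
  rw [← (OC.two_mul_add_div a).1, ← (OC.two_mul_add_div b).1, h]

private theorem IndT_inj0 {a b : Ordinal.{0}} (h : 2 * a = 2 * b) : a = b := by
  rw [← (OC.two_mul_div a).1, ← (OC.two_mul_div b).1, h]

private theorem IndT_mul_le {a b : Ordinal.{0}} (h : a ≤ b) : 2 * a ≤ 2 * b := by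
  gcongr

private theorem IndT_fib (x : Seq) {y y' : Seq} {δ : Ordinal.{0}} (h : Sp y y' δ) :
    Sp (OC.cd x y) (OC.cd x y') (2 * (OC.ln x + δ) + 1) := by
  obtain ⟨⟨ν, h1, h2⟩, h3, h4⟩ := h
  refine ⟨⟨2 * (OC.ln x + ν) + 1, ?_, ?_⟩, fun α hα => ?_, ?_⟩
  · gcongr
  · rw [IndT_at2]
    exact h2
  · by_cases h0 : α % 2 = 0
    · rw [IndT_even _ _ h0, IndT_even _ _ h0]
    · by_cases h6 : α / 2 < OC.ln x
      · rw [IndT_odd1 _ _ h0 h6, IndT_odd1 _ _ h0 h6]
      · rw [IndT_odd2 _ _ h0 h6, IndT_odd2 _ _ h0 h6]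
        exact h3 _ ((Ordinal.sub_lt_of_le (not_lt.1 h6)).2 (IndT_odd hα h0))
  · rw [IndT_at2, IndT_at2]
    exact h4

theorem fibT {x : Seq} (hx : x ∈ R omω) : EmbT (fun y => OC.cd x y) univ := by
  refine ⟨⟨fun f hf => ⟨OC.cd_mem hx hf, trivial⟩, fun f _ g _ hfg => OC.cd_lt2 hfg⟩, ?_, ?_⟩
  · intro y _ y' _ δ h
    exact ⟨_, IndT_fib x h⟩
  · intro y _ y1 _ y2 _ δ δ' ε h1 h2 h3 h4
    have e1 := h3.unique (IndT_fib x h1)
    have e2 := h4.unique (IndT_fib x h2)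
    have e3 : OC.ln x + δ = OC.ln x + δ' := IndT_inj1 (e1.symm.trans e2)
    rw [← Ordinal.add_sub_cancel (OC.ln x) δ, e3, Ordinal.add_sub_cancel]

private theorem IndT_trvA (w : Seq → Seq) {x y : Seq} (hx : x ∈ R omω) {δ : Ordinal.{0}}
    (h : Sp x y δ) (hd : δ < OC.ln y) :
    Sp (OC.cd x (w x)) (OC.cd y (w y)) (2 * δ + 1) := by
  obtain ⟨⟨ν, h1, h2⟩, h3, h4⟩ := h
  have h5 : ν < OC.ln x := OC.lt_ln hx h2
  have h6 : δ < OC.ln x := h1.trans_lt h5
  refine ⟨⟨2 * ν + 1, ?_, ?_⟩, fun α hα => ?_, ?_⟩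
  · gcongr
  · rw [IndT_at1 _ _ h5]
    exact h2
  · by_cases h0 : α % 2 = 0
    · have h7 := IndT_le hα
      rw [IndT_even _ _ h0, IndT_even _ _ h0, decide_eq_true (h7.trans_lt hd),
        decide_eq_true (h7.trans_lt h6)]
    · have h7 := IndT_odd hα h0
      rw [IndT_odd1 _ _ h0 (h7.trans hd), IndT_odd1 _ _ h0 (h7.trans h6), h3 _ h7]
  · rw [IndT_at1 _ _ hd, IndT_at1 _ _ h6]
    exact h4

private theorem IndT_trvB (w : Seq → Seq) {x y : Seq} (hx : x ∈ R omω) {δ : Ordinal.{0}}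
    (h : Sp x y δ) (hd : OC.ln y ≤ δ) :
    Sp (OC.cd x (w x)) (OC.cd y (w y)) (2 * OC.ln y) := by
  obtain ⟨⟨ν, h1, h2⟩, h3, h4⟩ := h
  have h5 : ν < OC.ln x := OC.lt_ln hx h2
  have h6 : δ < OC.ln x := h1.trans_lt h5
  refine ⟨⟨2 * ν + 1, ?_, ?_⟩, fun α hα => ?_, ?_⟩
  · exact (IndT_mul_le (hd.trans h1)).trans le_self_add
  · rw [IndT_at1 _ _ h5]
    exact h2
  · have h7 := IndT_lt hα
    have h8 : α / 2 < δ := h7.trans_le hd
    by_cases h0 : α % 2 = 0
    · rw [IndT_even _ _ h0, IndT_even _ _ h0, decide_eq_true h7,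
        decide_eq_true (h8.trans h6)]
    · rw [IndT_odd1 _ _ h0 h7, IndT_odd1 _ _ h0 (h8.trans h6), h3 _ h8]
  · rw [IndT_at0, IndT_at0, decide_eq_true (hd.trans_lt h6),
      decide_eq_false (lt_irrefl (OC.ln y))]
    exact Bool.false_ne_true

/-- In the second case `δ` is the least ordinal from `ln y` on where `x` has the digit 1. -/
private theorem IndT_least {x y : Seq} (hy : y ∈ R omω) {δ : Ordinal.{0}} (h : Sp x y δ)
    (hd : OC.ln y ≤ δ) : x δ = true ∧ ∀ μ, OC.ln y ≤ μ → μ < δ → x μ = false := by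
  obtain ⟨-, h3, h4⟩ := h
  have hv : ∀ μ, OC.ln y ≤ μ → y μ = false := by
    intro μ hμ
    rw [← Bool.not_eq_true]
    intro hc
    exact absurd (OC.lt_ln hy hc) (not_lt.2 hμ)
  refine ⟨?_, fun μ h5 h6 => ?_⟩
  · rw [hv δ hd] at h4
    rw [← Bool.not_eq_false]
    exact fun hc => h4 hc.symm
  · rw [← h3 μ h6, hv μ h5]

theorem trvT {w : Seq → Seq} (hw : ∀ x ∈ R omω, w x ∈ R omω) : EmbT (fun x => OC.cd x (w x)) univ := by
  refine ⟨⟨fun f hf => ⟨OC.cd_mem hf (hw f hf), trivial⟩, fun f _ g hg hfg => OC.cd_lt1 hg hfg⟩,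
    ?_, ?_⟩
  · intro x hx y _ δ h
    rcases lt_or_ge δ (OC.ln y) with hd | hd
    · exact ⟨_, IndT_trvA w hx h hd⟩
    · exact ⟨_, IndT_trvB w hx h hd⟩
  · intro x hx y hy y' hy' δ δ' ε h1 h2 h3 h4
    have hne : ∀ a b : Ordinal.{0}, 2 * a + 1 ≠ 2 * b := by
      intro a b hab
      have e1 := (OC.two_mul_add_div a).2
      rw [hab, (OC.two_mul_div b).2] at e1
      exact zero_ne_one e1
    rcases lt_or_ge δ (OC.ln y) with hd | hd
    · have e1 := h3.unique (IndT_trvA w hx h1 hd)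
      rcases lt_or_ge δ' (OC.ln y') with hd' | hd'
      · have e2 := h4.unique (IndT_trvA w hx h2 hd')
        exact IndT_inj1 (e1.symm.trans e2)
      · have e2 := h4.unique (IndT_trvB w hx h2 hd')
        exact absurd (e1.symm.trans e2) (hne _ _)
    · have e1 := h3.unique (IndT_trvB w hx h1 hd)
      rcases lt_or_ge δ' (OC.ln y') with hd' | hd'
      · have e2 := h4.unique (IndT_trvA w hx h2 hd')
        exact absurd (e2.symm.trans e1) (hne _ _)
      · have e2 := h4.unique (IndT_trvB w hx h2 hd')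
        have e3 : OC.ln y = OC.ln y' := IndT_inj0 (e1.symm.trans e2)
        obtain ⟨k1, k2⟩ := IndT_least hy h1 hd
        obtain ⟨k3, k4⟩ := IndT_least hy' h2 hd'
        rcases lt_trichotomy δ δ' with hlt | heq | hgt
        · have k5 := k4 δ (e3 ▸ hd) hlt
          rw [k1] at k5
          exact absurd k5 (by decide)
        · exact heq
        · have k5 := k2 δ' (e3.symm ▸ hd') hgt
          rw [k3] at k5
          exact absurd k5 (by decide)

end Pool.Agent.H.MP_353193_lc.SM
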