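import Pool.Agent.H.MP_353193_lc.SM.Inc
import Pool.Agent.H.MP_353193_lc.SM.Chn

/-!
# Loc: the isolating node

* `local_node`: by contradiction: for every `v ∈ T m` there is `g v ∈ T m` above `v` such that `{y | y ∈ cn (g v) ∧ ∀ z ∈ F y, z ∈ cn v → z ∈ cn (g v)}` contains no copy.
  `chain` with `g i v = g v` (start with the node of length 0): `v i`, `z`. For `y ∈ R omω` let `I y = {i < om (n + 1) | ∃ x ∈ F y, x ∈ cn (v i) ∧ x ∉ cn (g (v i))}`; every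
  `x` belongs to at most one `i` (`Le (g (v i)) (v j)` for `i < j`), so `#(I y) ≤ aleph n` (injection `i ↦ x`) and `bdd_small` gives `a y < om (n + 1)` with
  `i ≤ a y` for all `i ∈ I y`. By `emb_cn` let `θ` be a copy map into `cn z`; `bounded_copy` for `x ↦ a (θ x)` gives `β`
  and a copy map `ψ`; `θ ∘ ψ` maps into `{y ∈ cn z | a y ≤ β}`, which is contained in the set for `v (β + 1)`, `g (v (β + 1))` (`cn z ⊆ cn (g (v (β + 1)))`, `β + 1 ∉ I y`,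
  `β + 1 < om (n + 1)`): contradiction.
-/

set_option autoImplicit false

open Cardinal Ordinal Set

namespace Pool.Agent.H.MP_353193_lc.SM

theorem local_node (n m : ℕ) (hnm : n + 1 < m) (F : Seq → Set Seq)
    (hF : ∀ y ∈ R omω, #(F y) ≤ Cardinal.aleph (n : Ordinal.{1})) :
    ∃ v ∈ T m, ∀ u ∈ T m, Le v u → Lg {y | y ∈ cn u ∧ ∀ z ∈ F y, z ∈ cn v → z ∈ cn u} := by
  classical
  by_contra hcon
  have hex : ∀ v : Nod, ∃ u : Nod, v ∈ T m → (u ∈ T m ∧ Le v u ∧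
      ¬ Lg {y | y ∈ cn u ∧ ∀ z ∈ F y, z ∈ cn v → z ∈ cn u}) := by
    intro v
    by_cases hv : v ∈ T m
    · by_contra hc
      apply hcon
      refine ⟨v, hv, fun u hu hvu => ?_⟩
      by_contra hL
      exact hc ⟨u, fun _ => ⟨hu, hvu, hL⟩⟩
    · exact ⟨v, fun h => absurd h hv⟩
  choose g hg using hex
  obtain ⟨v, z, hz, -, hvz, hij⟩ := chain n m hnm (fun _ => g)
    (fun i _ v hv => ⟨(hg v hv).1, (hg v hv).2.1⟩) ⟨0, fun _ => false⟩ (om_pos m)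
  let I : Seq → Set Ordinal.{0} := fun y =>
    {i | i < om (n + 1) ∧ ∃ x ∈ F y, x ∈ cn (v i) ∧ x ∉ cn (g (v i))}
  have hI : ∀ y, #(I y) ≤ #(F y) := by
    intro y
    have hch : ∀ i : I y, ∃ x ∈ F y, x ∈ cn (v i.1) ∧ x ∉ cn (g (v i.1)) := fun i => i.2.2
    choose X hX1 hX2 hX3 using hch
    refine Cardinal.mk_le_of_injective (f := fun i => (⟨X i, hX1 i⟩ : F y)) ?_
    intro i j hEq
    have hEq' : X i = X j := congrArg Subtype.val hEq
    by_contra hne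
    rcases lt_or_gt_of_ne (fun h : i.1 = j.1 => hne (Subtype.ext h)) with h | h
    · apply hX3 i
      rw [hEq']
      exact (hij i.1 j.1 h j.2.1).cn_subset (hX2 j)
    · apply hX3 j
      rw [← hEq']
      exact (hij j.1 i.1 h i.2.1).cn_subset (hX2 i)
  have ha : ∀ y, ∃ β : Ordinal.{0}, y ∈ R omω → β < om (n + 1) ∧ ∀ i ∈ I y, i ≤ β := by
    intro y
    by_cases hy : y ∈ R omω
    · obtain ⟨β, h1, h2⟩ := bdd_small n (I y) (fun i hi => hi.1) ((hI y).trans (hF y hy))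
      exact ⟨β, fun _ => ⟨h1, h2⟩⟩
    · exact ⟨0, fun h => absurd h hy⟩
  choose a ha' using ha
  obtain ⟨θ, hθ⟩ := emb_cn hz
  obtain ⟨β, hβ, ψ, hψ⟩ := bounded_copy n (fun x => a (θ x))
    (fun y hy => (ha' _ (hθ.1 y hy).1).1)
  have hβ1 : β + 1 < om (n + 1) := om_succ hβ
  refine (hg (v (β + 1)) (hvz _ hβ1).1).2.2 ⟨fun x => θ (ψ x), ⟨fun f hf => ?_, ?_⟩⟩
  · have hf1 := hψ.1 f hf
    have hf2 := hθ.1 _ hf1.1
    refine ⟨hf2.1, (hvz _ hβ1).2.2.cn_subset hf2.2, fun x hx hxv => ?_⟩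
    by_contra hxg
    have h1 : β + 1 ≤ a (θ (ψ f)) := (ha' _ hf2.1).2 _ ⟨hβ1, x, hx, hxv, hxg⟩
    have h2 : a (θ (ψ f)) ≤ β := hf1.2
    exact absurd (h1.trans h2) (not_le.2 (lt_add_one β))
  · exact fun f hf g hg' hfg => hθ.2 _ (hψ.1 f hf).1 _ (hψ.1 g hg').1 (hψ.2 f hf g hg' hfg)

end Pool.Agent.H.MP_353193_lc.SM
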