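import Pool.Agent.H.MP_353193_lc.SM.WinT
import Pool.Agent.H.MP_353193_lc.SM.CtT
import Pool.Agent.H.MP_353193_lc.SM.Inc
import Pool.Agent.H.MP_353193_lc.SM.Chn

/-!
# LocT: `bounded_copy` and `local_node` for `LgT`

* `bounded_copyT`: as `bounded_copy` in Inc.lean with `win_copyT`.
* `local_nodeT`: as `local_node` in Loc.lean. By contradiction: for every `v ∈ T m` there is `g v ∈ T m` above `v` such that the set for `v`, `g v` contains no copy. Let `g' v = cat (g v) x 0 true` (one more digit 1; any `x`), in `T m`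
  above `g v`. `chain` with `g'`: `v i`, `z`. For `y ∈ cn z` (in `R omω`) and `i < om (n + 1)` suppose `x ∈ F y`, `x ∈ R omω`, `x ∈ cn (v i)`, `x ∉ cn (g (v i))`: the first difference `δ` of `y`, `x` satisfies
  `(v i).len ≤ δ < (g (v i)).len`, and `y` has the digit 1 at `(g (v i)).len`, so `Sp y x δ`, `δ ∈ DF F y`. These intervals are disjoint for different `i`, so the set `I y` of all these `i` has at most
  `aleph n` elements: `bdd_small`, then `bounded_copyT`, `emb_cnT`, `EmbT.comp` as in `local_node`.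
-/

set_option autoImplicit false

open Cardinal Ordinal Set

namespace Pool.Agent.H.MP_353193_lc.SM

theorem bounded_copyT (n : ℕ) (a : Seq → Ordinal.{0}) (ha : ∀ y ∈ R omω, a y < om (n + 1)) :
    ∃ β, β < om (n + 1) ∧ LgT {y | a y ≤ β} := by
  obtain ⟨α, h1, v, h2⟩ := some_win n (fun α => {y | a y ≤ α})
    (fun α β hαβ y hy => le_trans hy hαβ) (fun y hy => ⟨a y, ha y hy, le_refl (a y)⟩)
  exact ⟨α, h1, win_copyT h2⟩

/-- the node `u` with one more digit 1 -/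
private noncomputable def LocT_up (u : Nod) : Nod where
  len := u.len + 1
  fn := fun ν => if ν < u.len then u.fn ν else true

private theorem LocT_le (u : Nod) : Le u (LocT_up u) :=
  ⟨(lt_add_one u.len).le, fun _ h => if_pos h⟩

private theorem LocT_T {m : ℕ} {u : Nod} (h : u ∈ T m) : LocT_up u ∈ T m := om_succ h

private theorem LocT_sp {F : Seq → Set Seq} {y : Seq} {w u : Nod} (hwu : Le w u)
    (hy : y ∈ cn (LocT_up u)) {x : Seq} (hx : x ∈ F y) (hxR : x ∈ R omω) (hxw : x ∈ cn w)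
    (hxu : x ∉ cn u) : ∃ δ ∈ DF F y, w.len ≤ δ ∧ δ < u.len := by
  classical
  have hyu : y ∈ cn u := (LocT_le u).cn_subset hy
  obtain ⟨μ, hμ, hne⟩ : ∃ μ, μ < u.len ∧ x μ ≠ y μ := by
    by_contra hc
    apply hxu
    intro μ hμ
    by_contra hn
    exact hc ⟨μ, hμ, fun he => hn (he.trans (hyu μ hμ))⟩
  have hset : {κ | x κ ≠ y κ}.Nonempty := ⟨μ, hne⟩
  have hδ := WellFounded.min_mem (wellFounded_lt (α := Ordinal.{0})) _ hset
  set δ := WellFounded.min (wellFounded_lt (α := Ordinal.{0})) {κ | x κ ≠ y κ} hset with hδd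
  have hmin : ∀ κ, κ < δ → x κ = y κ := by
    intro κ hκ
    by_contra hc
    exact WellFounded.not_lt_min (wellFounded_lt (α := Ordinal.{0})) {κ | x κ ≠ y κ} hc hκ
  have hδμ : δ ≤ μ := by
    by_contra hc
    exact hne (hmin μ (not_le.1 hc))
  refine ⟨δ, ⟨x, hx, hxR, ⟨u.len, (hδμ.trans_lt hμ).le, ?_⟩, hmin, hδ⟩, ?_, hδμ.trans_lt hμ⟩
  · have h1 : y u.len = if u.len < u.len then u.fn u.len else true := hy u.len (lt_add_one u.len)
    rw [if_neg (lt_irrefl _)] at h1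
    exact h1
  · by_contra hc
    have hc' : δ < w.len := not_le.1 hc
    exact hδ ((hxw δ hc').trans (hwu.cn_subset hyu δ hc').symm)

theorem local_nodeT (n m : ℕ) (hnm : n + 1 < m) (F : Seq → Set Seq)
    (hF : ∀ y ∈ R omω, #(DF F y) ≤ Cardinal.aleph (n : Ordinal.{1})) :
    ∃ v ∈ T m, ∀ u ∈ T m, Le v u →
      LgT {y | y ∈ cn u ∧ ∀ z ∈ F y, z ∈ R omω → z ∈ cn v → z ∈ cn u} := by
  classical
  by_contra hcon
  have hex : ∀ v : Nod, ∃ u : Nod, v ∈ T m → (u ∈ T m ∧ Le v u ∧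
      ¬ LgT {y | y ∈ cn u ∧ ∀ z ∈ F y, z ∈ R omω → z ∈ cn v → z ∈ cn u}) := by
    intro v
    by_cases hv : v ∈ T m
    · by_contra hc
      apply hcon
      refine ⟨v, hv, fun u hu hvu => ?_⟩
      by_contra hL
      exact hc ⟨u, fun _ => ⟨hu, hvu, hL⟩⟩
    · exact ⟨v, fun h => absurd h hv⟩
  choose g hg using hex
  obtain ⟨v, z, hz, -, hvz, hij⟩ := chain n m hnm (fun _ v => LocT_up (g v))
    (fun i _ v hv => ⟨LocT_T (hg v hv).1, (hg v hv).2.1.trans (LocT_le _)⟩)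
    ⟨0, fun _ => false⟩ (om_pos m)
  let I : Seq → Set Ordinal.{0} := fun y =>
    {i | i < om (n + 1) ∧ ∃ δ ∈ DF F y, (v i).len ≤ δ ∧ δ < (g (v i)).len}
  have hI : ∀ y, #(I y) ≤ #(DF F y) := by
    intro y
    have hch : ∀ i : I y, ∃ δ ∈ DF F y, (v i.1).len ≤ δ ∧ δ < (g (v i.1)).len := fun i => i.2.2
    choose X hX1 hX2 hX3 using hch
    have hlt : ∀ i j : I y, i.1 < j.1 → X i < X j := fun i j h =>
      (hX3 i).trans_le (((LocT_le _).1.trans (hij i.1 j.1 h j.2.1).1).trans (hX2 j))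
    refine Cardinal.mk_le_of_injective (f := fun i => (⟨X i, hX1 i⟩ : DF F y)) ?_
    intro i j hEq
    have hEq' : X i = X j := congrArg Subtype.val hEq
    by_contra hne
    rcases lt_or_gt_of_ne (fun h : i.1 = j.1 => hne (Subtype.ext h)) with h | h
    · exact (hlt i j h).ne hEq'
    · exact (hlt j i h).ne hEq'.symm
  have ha : ∀ y, ∃ β : Ordinal.{0}, y ∈ R omω → β < om (n + 1) ∧ ∀ i ∈ I y, i ≤ β := by
    intro y
    by_cases hy : y ∈ R omω
    · obtain ⟨β, h1, h2⟩ := bdd_small n (I y) (fun i hi => hi.1) ((hI y).trans (hF y hy))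
      exact ⟨β, fun _ => ⟨h1, h2⟩⟩
    · exact ⟨0, fun h => absurd h hy⟩
  choose a ha' using ha
  obtain ⟨θ, hθ⟩ := emb_cnT hz
  obtain ⟨β, hβ, ψ, hψ⟩ := bounded_copyT n (fun x => a (θ x))
    (fun y hy => (ha' _ (hθ.1.1 y hy).1).1)
  have hβ1 : β + 1 < om (n + 1) := om_succ hβ
  have hc := hθ.comp hψ
  refine (hg (v (β + 1)) (hvz _ hβ1).1).2.2 ⟨fun x => θ (ψ x), ⟨⟨fun f hf => ?_, hc.1.2⟩, hc.2⟩⟩
  have hf1 := hψ.1.1 f hf
  have hf2 := hθ.1.1 _ hf1.1
  have hup : θ (ψ f) ∈ cn (LocT_up (g (v (β + 1)))) := (hvz _ hβ1).2.2.cn_subset hf2.2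
  refine ⟨hf2.1, (LocT_le _).cn_subset hup, fun x hx hxR hxv => ?_⟩
  by_contra hxg
  have h1 : β + 1 ≤ a (θ (ψ f)) := (ha' _ hf2.1).2 _
    ⟨hβ1, LocT_sp (hg (v (β + 1)) (hvz _ hβ1).1).2.1 hup hx hxR hxv hxg⟩
  have h2 : a (θ (ψ f)) ≤ β := hf1.2
  exact absurd (h1.trans h2) (not_le.2 (lt_add_one β))

end Pool.Agent.H.MP_353193_lc.SM
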