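import Pool.Agent.H.MP_353193_lc.SM.Df

/-!
# Om: facts on `om`

`om` is strictly increasing (`Cardinal.ord_lt_ord`, `Cardinal.aleph_lt_aleph`); every ordinal below `omω` is below some `om j` (`Cardinal.lt_ord`,
`Cardinal.aleph_limit` or `Cardinal.lt_aleph_iff` for `omega0`, `Ordinal.lt_omega0`; and `om j < omω`); `om j` is additively principal
(`Ordinal.isPrincipal_add_ord`) and, with `1 < om j`, closed under `+ 1`. `om_sup`: for `k < m` the supremum of at most `aleph k` ordinals below `om m` is below `om m` (regularity).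
-/

set_option autoImplicit false

open Cardinal Ordinal Set

namespace Pool.Agent.H.MP_353193_lc.SM

theorem om_lt {i j : ℕ} (h : i < j) : om i < om j := by
  unfold om
  rw [Cardinal.ord_lt_ord, Cardinal.aleph_lt_aleph]
  exact_mod_cast h

theorem om_le {i j : ℕ} (h : i ≤ j) : om i ≤ om j := by
  rcases h.lt_or_eq with h | h
  · exact (om_lt h).le
  · rw [h]

theorem om_lt_omω (j : ℕ) : om j < omω := by
  unfold om omω
  rw [Cardinal.ord_lt_ord, Cardinal.aleph_lt_aleph]
  exact Ordinal.natCast_lt_omega0 j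

theorem lt_omω_iff (β : Ordinal.{0}) : β < omω ↔ ∃ j : ℕ, β < om j := by
  constructor
  · intro h
    have h1 : β < Ordinal.omega Ordinal.omega0 := by
      rw [← Cardinal.ord_aleph]
      exact h
    obtain ⟨a, ha, h2⟩ := (Ordinal.isNormal_omega.lt_iff_exists_lt
      Ordinal.isSuccLimit_omega0).1 h1
    obtain ⟨j, rfl⟩ := Ordinal.lt_omega0.1 ha
    refine ⟨j, ?_⟩
    unfold om
    rw [Cardinal.ord_aleph]
    exact h2
  · rintro ⟨j, h⟩
    exact h.trans (om_lt_omω j)

theorem om_pos (j : ℕ) : 0 < om j := by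
  unfold om
  rw [Cardinal.ord_aleph]
  exact Ordinal.omega_pos _

theorem om_add {j : ℕ} {a b : Ordinal.{0}} (ha : a < om j) (hb : b < om j) : a + b < om j := by
  exact Ordinal.isPrincipal_add_ord (Cardinal.aleph0_le_aleph _) ha hb

theorem om_succ {j : ℕ} {a : Ordinal.{0}} (ha : a < om j) : a + 1 < om j := by
  refine om_add ha ?_
  unfold om
  rw [Cardinal.ord_aleph]
  exact Ordinal.one_lt_omega0.trans_le (Ordinal.omega0_le_omega _)

/-- The supremum of a family of length at most `om k` of ordinals below `om m` is below `om m` (`k < m`). -/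
theorem om_sup {k m : ℕ} (hkm : k < m) (c : Ordinal.{0}) (hc : c ≤ om k) (f : Ordinal.{0} → Ordinal.{0})
    (hf : ∀ i, i < c → f i < om m) : ∃ b, b < om m ∧ ∀ i, i < c → f i ≤ b := by
  obtain ⟨m, rfl⟩ : ∃ m', m = m' + 1 := ⟨m - 1, by omega⟩
  have hreg : (om (m + 1)).cof = Cardinal.aleph ((m + 1 : ℕ) : Ordinal.{0}) := by
    have h1 := (Cardinal.isRegular_aleph_add_one (m : Ordinal.{0})).cof_ord
    have h2 : (m : Ordinal.{0}) + 1 = ((m + 1 : ℕ) : Ordinal.{0}) := (Nat.cast_succ m).symm
    rw [h2] at h1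
    exact h1
  have hcard : Cardinal.mk c.ToType < (om (m + 1)).cof := by
    rw [hreg, Cardinal.mk_toType]
    have h1 : c.card ≤ Cardinal.aleph (k : Ordinal.{0}) := by
      have h2 := Ordinal.card_le_card hc
      unfold om at h2
      rwa [Cardinal.card_ord] at h2
    refine h1.trans_lt ?_
    rw [Cardinal.aleph_lt_aleph]
    exact_mod_cast hkm
  have hlt : ⨆ x : c.ToType, f (Ordinal.ToType.mk.symm x).1 < om (m + 1) :=
    Ordinal.iSup_lt_of_lt_cof hcard fun x => hf _ (Ordinal.ToType.mk.symm x).2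
  refine ⟨_, hlt, fun i hi => ?_⟩
  have h3 := Ordinal.le_iSup (fun x : c.ToType => f (Ordinal.ToType.mk.symm x).1)
    (Ordinal.ToType.mk ⟨i, hi⟩)
  simp only [OrderIso.symm_apply_apply] at h3
  exact h3

end Pool.Agent.H.MP_353193_lc.SM
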