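import Mathlib

/-!
# OrA: closed sets for `r`-tuples

`C` is closed if every vertex with at least `r` neighbours in `C` belongs to `C` (written with finite sets of size `r`).
`cl A` = union of `S n`, `S 0 = A`, `S (n + 1) = S n ∪ ⋃ s, {x | ∀ y ∈ s, G.Adj x y}`, `s` the finite subsets of `S n` with `r` elements. The number of finite subsets of an infinite set
is its cardinality (`Cardinal.mk_finset_of_infinite`; `mk_biUnion_le`); countably many steps. Monotone by construction.
-/

set_option autoImplicit false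

open Cardinal Ordinal Set

universe u

namespace Pool.Agent.H.MP_353193_lc.SM

/-- `C` is closed under common neighbours of its subsets with `r` elements. -/
def Cls {V : Type u} (G : SimpleGraph V) (r : ℕ) (C : Set V) : Prop :=
  ∀ s : Finset V, s.card = r → (∀ y ∈ s, y ∈ C) → ∀ x, (∀ y ∈ s, G.Adj x y) → x ∈ C

/-- One step of the closure. -/
private def OrA_step {V : Type u} (G : SimpleGraph V) (r : ℕ) (A : Set V) : Set V :=
  A ∪ ⋃ s : {s : Finset V // s.card = r ∧ ∀ y ∈ s, y ∈ A}, {x | ∀ y ∈ s.1, G.Adj x y}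

/-- The iterations. -/
private def OrA_it {V : Type u} (G : SimpleGraph V) (r : ℕ) (A : Set V) : ℕ → Set V
  | 0 => A
  | n + 1 => OrA_step G r (OrA_it G r A n)

private theorem OrA_fin {V : Type u} (r : ℕ) (A : Set V) (κ : Cardinal.{u}) (hκ : ℵ₀ ≤ κ) :
    #{s : Finset V // s.card = r ∧ ∀ y ∈ s, y ∈ A} ≤ max κ #A := by
  have h1 : #{s : Finset V // s.card = r ∧ ∀ y ∈ s, y ∈ A} ≤ #(Finset A) := by
    classical
    refine Cardinal.mk_le_of_injective (f := fun s => s.1.subtype fun y => y ∈ A) ?_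
    intro s t hst
    apply Subtype.ext
    ext y
    have h2 := fun z => Finset.ext_iff.1 hst z
    constructor
    · intro hy
      have h3 := (h2 ⟨y, s.2.2 y hy⟩).1 (Finset.mem_subtype.2 hy)
      exact Finset.mem_subtype.1 h3
    · intro hy
      have h3 := (h2 ⟨y, t.2.2 y hy⟩).2 (Finset.mem_subtype.2 hy)
      exact Finset.mem_subtype.1 h3
  refine h1.trans ?_
  rcases finite_or_infinite A with hA | hA
  · have : Finite (Finset A) := inferInstance
    exact ((Cardinal.lt_aleph0_of_finite (Finset A)).le.trans hκ).trans (le_max_left _ _)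
  · rw [Cardinal.mk_finset_of_infinite]
    exact le_max_right _ _

private theorem OrA_card {V : Type u} (G : SimpleGraph V) (r : ℕ) (κ : Cardinal.{u}) (hκ : ℵ₀ ≤ κ)
    (h : ∀ s : Finset V, s.card = r → #{x // ∀ y ∈ s, G.Adj x y} ≤ κ) (A : Set V) :
    #(OrA_step G r A) ≤ max κ #A := by
  have hc : ℵ₀ ≤ max κ #A := hκ.trans (le_max_left _ _)
  refine (Cardinal.mk_union_le _ _).trans (Cardinal.add_le_of_le hc (le_max_right _ _) ?_)
  refine (Cardinal.mk_iUnion_le _).trans (Cardinal.mul_le_of_le hc (OrA_fin r A κ hκ) ?_)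
  refine ciSup_le' fun s => ?_
  exact (h s.1 s.2.1).trans (le_max_left _ _)

private theorem OrA_mono {V : Type u} (G : SimpleGraph V) (r : ℕ) {A B : Set V} (h : A ⊆ B) :
    OrA_step G r A ⊆ OrA_step G r B := by
  rintro x (hx | hx)
  · exact Or.inl (h hx)
  · obtain ⟨s, hs⟩ := Set.mem_iUnion.1 hx
    exact Or.inr (Set.mem_iUnion.2 ⟨⟨s.1, s.2.1, fun y hy => h (s.2.2 y hy)⟩, hs⟩)

theorem exists_cl {V : Type u} (G : SimpleGraph V) (r : ℕ) (κ : Cardinal.{u}) (hκ : ℵ₀ ≤ κ)
    (h : ∀ s : Finset V, s.card = r → #{x // ∀ y ∈ s, G.Adj x y} ≤ κ) :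
    ∃ cl : Set V → Set V, (∀ A, A ⊆ cl A) ∧ (∀ A B, A ⊆ B → cl A ⊆ cl B) ∧ (∀ A, Cls G r (cl A)) ∧
      ∀ A, #(cl A) ≤ max κ #A := by
  have hm : ∀ A, Monotone (OrA_it G r A) := fun A =>
    monotone_nat_of_le_succ fun n => Set.subset_union_left
  refine ⟨fun A => ⋃ n : ULift.{u} ℕ, OrA_it G r A n.down, ?_, ?_, ?_, ?_⟩
  · intro A x hx
    exact Set.mem_iUnion.2 ⟨⟨0⟩, hx⟩
  · intro A B hAB
    have h1 : ∀ n, OrA_it G r A n ⊆ OrA_it G r B n := by
      intro n
      induction n with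
      | zero => exact hAB
      | succ n ih => exact OrA_mono G r ih
    intro x hx
    obtain ⟨n, hn⟩ := Set.mem_iUnion.1 hx
    exact Set.mem_iUnion.2 ⟨n, h1 _ hn⟩
  · intro A s hs hsA x hx
    have h1 : ∀ y, ∃ n, y ∈ s → y ∈ OrA_it G r A n := by
      intro y
      by_cases hy : y ∈ s
      · obtain ⟨n, hn⟩ := Set.mem_iUnion.1 (hsA y hy)
        exact ⟨n.down, fun _ => hn⟩
      · exact ⟨0, fun h => absurd h hy⟩
    choose f hf using h1
    refine Set.mem_iUnion.2 ⟨⟨s.sup f + 1⟩, ?_⟩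
    refine Or.inr (Set.mem_iUnion.2 ⟨⟨s, hs, fun y hy => ?_⟩, hx⟩)
    exact hm A (Finset.le_sup hy) (hf y hy)
  · intro A
    have hc : ℵ₀ ≤ max κ #A := hκ.trans (le_max_left _ _)
    have h1 : ∀ n, #(OrA_it G r A n) ≤ max κ #A := by
      intro n
      induction n with
      | zero => exact le_max_right _ _
      | succ n ih =>
        exact (OrA_card G r κ hκ h _).trans (max_le (le_max_left _ _) ih)
    refine (Cardinal.mk_iUnion_le _).trans (Cardinal.mul_le_of_le hc ?_ ?_)
    · refine le_trans ?_ hc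
      exact Cardinal.mk_le_aleph0
    · exact ciSup_le' fun n => h1 _

end Pool.Agent.H.MP_353193_lc.SM
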