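import Pool.Agent.H.MP_353193_lc.SM.DfT

/-!
# PrT: first differences in the cones of the round `k` of `pair`

`k ≤ lv x`, `k ≤ lv y`, `x`, `y` agree below `om i` for `i < k`. Let `v` be a node, `f ∈ cn (cat v x (om k) (decide (k < lv x)))`,
`g ∈ cn (cat v y (om k) (decide (k < lv y)))`.

* `sp_cases`: let `Sp x y δ`. (A) If `lv y` is at least the least `k` with `δ < om k` then with this `k` (it is `≤ lv x`: `x` has a digit 1 at or after `δ`) the first
  alternative holds. (B) Otherwise `k = lv y`; `om k ≤ δ`, `k < lv x`, and `δ` is the least ordinal `≥ om k` with `x δ = true` (as `y` vanishes from `om k` on).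
* `sp_catA`: first difference `v.len + δ`; `f` has the digit 1 at `v.len + ν` if `ν < om k`, `x ν = true`; if all digits 1 of `x` at or after `δ` are at or after `om k` then
  `k < lv x` and `f` has the digit 1 at `v.len + om k`.
* `sp_catB`: first difference `v.len + om k`, where `f` has the digit 1.
-/

set_option autoImplicit false

open Cardinal Ordinal Set

namespace Pool.Agent.H.MP_353193_lc.SM

private theorem PrT_fn (v : Nod) (x : Seq) (γ : Ordinal.{0}) (i : Bool) {ν : Ordinal.{0}}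
    (hν : ν < γ) : (cat v x γ i).fn (v.len + ν) = x ν := by
  show (if v.len + ν < v.len then v.fn (v.len + ν) else
    if v.len + ν < v.len + γ then x (v.len + ν - v.len) else i) = x ν
  rw [if_neg (not_lt.mpr le_self_add), if_pos (by gcongr), Ordinal.add_sub_cancel]

private theorem PrT_last (v : Nod) (x : Seq) (γ : Ordinal.{0}) (i : Bool) :
    (cat v x γ i).fn (v.len + γ) = i := by
  show (if v.len + γ < v.len then v.fn (v.len + γ) else
    if v.len + γ < v.len + γ then x (v.len + γ - v.len) else i) = i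
  rw [if_neg (not_lt.mpr le_self_add), if_neg (lt_irrefl _)]

private theorem PrT_len (v : Nod) (x : Seq) {γ ν : Ordinal.{0}} (i : Bool) (hν : ν ≤ γ) :
    v.len + ν < (cat v x γ i).len := by
  show v.len + ν < v.len + γ + 1
  have h1 : v.len + ν ≤ v.len + γ := by gcongr
  exact Order.lt_add_one_iff.mpr h1

private theorem PrT_agree {v : Nod} {x y : Seq} {γ δ : Ordinal.{0}} (hδ : δ ≤ γ)
    (h : ∀ μ, μ < δ → x μ = y μ) {i i' : Bool} {f g : Seq}
    (hf : f ∈ cn (cat v x γ i)) (hg : g ∈ cn (cat v y γ i')) :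
    ∀ μ, μ < v.len + δ → f μ = g μ := by
  intro μ hμ
  by_cases h1 : μ < v.len
  · have a1 : f μ = (cat v x γ i).fn μ := hf μ (h1.trans_le (cat_le v x γ i).1)
    have a2 : g μ = (cat v y γ i').fn μ := hg μ (h1.trans_le (cat_le v y γ i').1)
    rw [a1, a2, (cat_le v x γ i).2 μ h1, (cat_le v y γ i').2 μ h1]
  · have h2 : μ - v.len < δ := (Ordinal.sub_lt_of_le (not_lt.mp h1)).mpr hμ
    have h3 : v.len + (μ - v.len) = μ := Ordinal.add_sub_cancel_of_le (not_lt.mp h1)
    have a1 : f (v.len + (μ - v.len)) = (cat v x γ i).fn (v.len + (μ - v.len)) :=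
      hf _ (PrT_len v x i (h2.le.trans hδ))
    have a2 : g (v.len + (μ - v.len)) = (cat v y γ i').fn (v.len + (μ - v.len)) :=
      hg _ (PrT_len v y i' (h2.le.trans hδ))
    rw [PrT_fn v x γ i (h2.trans_le hδ)] at a1
    rw [PrT_fn v y γ i' (h2.trans_le hδ)] at a2
    rw [h3] at a1 a2
    rw [a1, a2, h _ h2]

theorem sp_cases {x y : Seq} (hx : x ∈ R omω) (hy : y ∈ R omω) {δ : Ordinal.{0}} (h : Sp x y δ) :
    ∃ k, k ≤ lv x ∧ k ≤ lv y ∧ (∀ i, i < k → ∀ μ, μ < om i → x μ = y μ) ∧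
      ((δ < om k ∧ ∀ i, i < k → om i ≤ δ) ∨
        (k = lv y ∧ k < lv x ∧ om k ≤ δ ∧ x δ = true ∧ ∀ μ, om k ≤ μ → μ < δ → x μ = false)) := by
  classical
  obtain ⟨⟨ν, hν, hxν⟩, ha, hne⟩ := h
  have hlx : δ < om (lv x) := hν.trans_lt (lv_spec hx ν hxν)
  have hex : ∃ i : ℕ, δ < om i := ⟨lv x, hlx⟩
  have h1 : δ < om (Nat.find hex) := Nat.find_spec hex
  have h2 : ∀ j, j < Nat.find hex → om j ≤ δ := fun j hj => not_lt.1 (Nat.find_min hex hj)
  have h3 : Nat.find hex ≤ lv x := Nat.find_min' hex hlx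
  generalize Nat.find hex = i at h1 h2 h3
  by_cases hc : i ≤ lv y
  · exact ⟨i, h3, hc, fun j hj μ hμ => (ha μ (hμ.trans_le (h2 j hj))).symm, Or.inl ⟨h1, h2⟩⟩
  · have hc' : lv y < i := not_le.1 hc
    have hyz : ∀ μ, om (lv y) ≤ μ → y μ = false := by
      intro μ hμ
      rw [← Bool.not_eq_true]
      exact fun h4 => absurd (lv_spec hy μ h4) (not_lt.2 hμ)
    refine ⟨lv y, (hc'.trans_le h3).le, le_rfl,
      fun j hj μ hμ => (ha μ (hμ.trans_le (h2 j (hj.trans hc')))).symm,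
      Or.inr ⟨rfl, hc'.trans_le h3, h2 _ hc', ?_, fun μ hμ hμδ => ?_⟩⟩
    · rw [hyz δ (h2 _ hc')] at hne
      rw [← Bool.not_eq_false]
      exact fun h4 => hne h4.symm
    · rw [← ha μ hμδ]
      exact hyz μ hμ

theorem sp_catA {x y : Seq} (hx : x ∈ R omω) (hy : y ∈ R omω) {δ : Ordinal.{0}} (h : Sp x y δ) {k : ℕ} (hk : k ≤ lv x)
    (hd : δ < om k) (v : Nod) {i : Bool} {f g : Seq}
    (hf : f ∈ cn (cat v x (om k) (decide (k < lv x)))) (hg : g ∈ cn (cat v y (om k) i)) :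
    Sp f g (v.len + δ) := by
  obtain ⟨⟨ν, hν, hxν⟩, ha, hne⟩ := h
  refine ⟨?_, fun μ hμ => (PrT_agree hd.le (fun κ hκ => (ha κ hκ).symm) hf hg μ hμ).symm, ?_⟩
  · rcases lt_or_ge ν (om k) with h1 | h1
    · refine ⟨v.len + ν, by gcongr, ?_⟩
      rw [hf _ (PrT_len v x _ h1.le), PrT_fn v x _ _ h1]
      exact hxν
    · have h2 : k < lv x := by
        by_contra hcon
        exact absurd (lv_spec hx ν hxν) (not_lt.2 ((om_le (not_lt.1 hcon)).trans h1))
      have h3 : v.len + δ ≤ v.len + om k := by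
        have := hd.le
        gcongr
      refine ⟨v.len + om k, h3, ?_⟩
      rw [hf _ (PrT_len v x _ le_rfl), PrT_last]
      exact decide_eq_true h2
  · rw [hf _ (PrT_len v x _ hd.le), PrT_fn v x _ _ hd, hg _ (PrT_len v y _ hd.le), PrT_fn v y _ _ hd]
    exact hne

theorem sp_catB {x y : Seq} {δ : Ordinal.{0}} (h : Sp x y δ) {k : ℕ} (hd : om k ≤ δ) (v : Nod) {f g : Seq}
    (hf : f ∈ cn (cat v x (om k) true)) (hg : g ∈ cn (cat v y (om k) false)) :
    Sp f g (v.len + om k) := by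
  obtain ⟨-, ha, -⟩ := h
  have h1 : f (v.len + om k) = true := by
    rw [hf _ (PrT_len v x _ le_rfl), PrT_last]
  have h2 : g (v.len + om k) = false := by
    rw [hg _ (PrT_len v y _ le_rfl), PrT_last]
  refine ⟨⟨_, le_rfl, h1⟩, fun μ hμ =>
    (PrT_agree le_rfl (fun κ hκ => (ha κ (hκ.trans_le hd)).symm) hf hg μ hμ).symm, ?_⟩
  rw [h1, h2]
  decide

end Pool.Agent.H.MP_353193_lc.SM
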