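import Pool.Agent.H.MP_353193_lc.SM.Chn
import Pool.Agent.H.MP_353193_lc.SM.LsA

/-!
# Rnd: one round for all `α < om (n + 1)` at once

For `α < om (n + 1)` and `w ∈ T m` above `s`: if there is `u ∈ T m` above `w` with `Dn (B α) m u` then (by `Lose.up` and `lose_iff`, `j α < m`) there are
`ζ < ξ α` and `u' ∈ T m` above `u` with `Lose (B α) ζ (j α + 1) u'`; let `g α w` be such a `u'`; otherwise (or if `w` is not above `s`) `g α w = w`. Apply `chain`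
with `v0 = s`, put `s' = z`. If the first case holds for `α`, `w = v α`, then `ξ' α = ζ`, `j' α = j α + 1`; otherwise `ξ' α = ξ α`, `j' α = j α`, and no `u ∈ T m` above
`v α`, so none above `z`, has `Dn (B α) m u`.
-/

set_option autoImplicit false

open Cardinal Ordinal Set

namespace Pool.Agent.H.MP_353193_lc.SM

theorem round (n m : ℕ) (hnm : n + 1 < m) (B : Ordinal.{0} → Set Seq) (ξ : Ordinal.{0} → Ordinal.{1})
    (j : Ordinal.{0} → ℕ) (hj : ∀ α, α < om (n + 1) → j α < m) (s : Nod) (hs : s ∈ T m)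
    (hL : ∀ α, α < om (n + 1) → Lose (B α) (ξ α) (j α) s) :
    ∃ s' ∈ T m, Le s s' ∧ ∃ (ξ' : Ordinal.{0} → Ordinal.{1}) (j' : Ordinal.{0} → ℕ),
      ∀ α, α < om (n + 1) → Lose (B α) (ξ' α) (j' α) s' ∧ j' α ≤ j α + 1 ∧ ξ' α ≤ ξ α ∧
        (ξ' α = ξ α → ∀ u ∈ T m, Le s' u → ¬ Dn (B α) m u) := by
  classical
  obtain ⟨P, hPdef⟩ : ∃ P : Ordinal.{0} → Nod → Prop, ∀ α w, P α w ↔
      ∃ u' ∈ T m, Le w u' ∧ ∃ ζ, ζ < ξ α ∧ Lose (B α) ζ (j α + 1) u' :=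
    ⟨_, fun _ _ => Iff.rfl⟩
  have hP : ∀ α, α < om (n + 1) → ∀ w, Le s w → ¬ P α w →
      ∀ u ∈ T m, Le w u → ¬ Dn (B α) m u := by
    intro α hα w hw hn u hu hwu hD
    obtain ⟨ζ, hζ, u', hu', h1, h2⟩ :=
      (lose_iff _ _ _ _).1 (hL α hα) m (hj α hα) u hu (hw.trans hwu) hD
    exact hn ((hPdef α w).2 ⟨u', hu', hwu.trans h1, ζ, hζ, h2⟩)
  have hex : ∀ α w, ∃ u' : Nod, (P α w → u' ∈ T m ∧ Le w u' ∧
      ∃ ζ, ζ < ξ α ∧ Lose (B α) ζ (j α + 1) u') ∧ (¬ P α w → u' = w) := by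
    intro α w
    by_cases h : P α w
    · obtain ⟨u', h1, h2, h3⟩ := (hPdef α w).1 h
      exact ⟨u', fun _ => ⟨h1, h2, h3⟩, fun h' => absurd h h'⟩
    · exact ⟨w, fun h' => absurd h' h, fun _ => rfl⟩
  choose g hg1 hg2 using hex
  obtain ⟨v, z, hz, hsz, hv, -⟩ := chain n m hnm g (fun α _ w hw => by
    by_cases h : P α w
    · exact ⟨(hg1 α w h).1, (hg1 α w h).2.1⟩
    · rw [hg2 α w h]
      exact ⟨hw, Le.refl w⟩) s hs
  have hfin : ∀ α, ∃ (a : Ordinal.{1}) (b : ℕ), α < om (n + 1) →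
      Lose (B α) a b z ∧ b ≤ j α + 1 ∧ a ≤ ξ α ∧
        (a = ξ α → ∀ u ∈ T m, Le z u → ¬ Dn (B α) m u) := by
    intro α
    by_cases hα : α < om (n + 1)
    · obtain ⟨-, h2, h3⟩ := hv α hα
      by_cases h : P α (v α)
      · obtain ⟨-, -, ζ, hζ, hl⟩ := hg1 α (v α) h
        exact ⟨ζ, j α + 1, fun _ => ⟨hl.up h3, le_rfl, hζ.le, fun he => absurd he hζ.ne⟩⟩
      · rw [hg2 α (v α) h] at h3
        exact ⟨ξ α, j α, fun _ => ⟨(hL α hα).up hsz, Nat.le_succ _, le_rfl,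
          fun _ u hu hzu => hP α hα (v α) h2 h u hu (h3.trans hzu)⟩⟩
    · exact ⟨0, 0, fun h => absurd h hα⟩
  choose ξ' j' h' using hfin
  exact ⟨z, hz, hsz, ξ', j', h'⟩

end Pool.Agent.H.MP_353193_lc.SM
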