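import Pool.Agent.H.MP_353193_lc.SM.Loc

/-!
# Stp: one step of the construction

* `step`: `local_node` with `m = n + j + 2` gives `v`; for `b : Seq` and a digit `i` the node `cat v b (om j) i` is in `T m` above `v` (`cat_mem_T`, `cat_le`), so choose
  copy maps `θ b` for `i = true`, and for `i = false` a copy map and `p b` a value of it.
-/

set_option autoImplicit false

open Cardinal Ordinal Set

namespace Pool.Agent.H.MP_353193_lc.SM

theorem step (n j : ℕ) (F : Seq → Set Seq)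
    (hF : ∀ y ∈ R omω, #(F y) ≤ Cardinal.aleph (n : Ordinal.{1})) :
    ∃ (v : Nod) (θ : Seq → Seq → Seq) (p : Seq → Seq),
      (∀ b, Emb (θ b) {y | y ∈ cn (cat v b (om j) true) ∧
        ∀ z ∈ F y, z ∈ cn v → z ∈ cn (cat v b (om j) true)}) ∧
      ∀ b, p b ∈ R omω ∧ p b ∈ cn (cat v b (om j) false) ∧
        ∀ z ∈ F (p b), z ∈ cn v → z ∈ cn (cat v b (om j) false) := by
  obtain ⟨v, hv, h⟩ := local_node n (n + j + 2) (by omega) F hF
  have hm : ∀ (b : Seq) (i : Bool), cat v b (om j) i ∈ T (n + j + 2) := fun b i =>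
    cat_mem_T (by omega) hv b i
  have h1 : ∀ b : Seq, Lg {y | y ∈ cn (cat v b (om j) true) ∧
      ∀ z ∈ F y, z ∈ cn v → z ∈ cn (cat v b (om j) true)} := fun b =>
    h _ (hm b true) (cat_le v b (om j) true)
  have h2 : ∀ b : Seq, ∃ y, y ∈ R omω ∧ y ∈ cn (cat v b (om j) false) ∧
      ∀ z ∈ F y, z ∈ cn v → z ∈ cn (cat v b (om j) false) := by
    intro b
    obtain ⟨θ, hθ⟩ := h _ (hm b false) (cat_le v b (om j) false)
    obtain ⟨y, hy, -⟩ := cn_nonempty hv
    have h3 := hθ.1 y hy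
    exact ⟨θ y, h3.1, h3.2.1, h3.2.2⟩
  choose θ hθ using h1
  choose p hp using h2
  exact ⟨v, θ, p, hθ, hp⟩

end Pool.Agent.H.MP_353193_lc.SM
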