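import Pool.Agent.H.MP_353193_lc.SM.Rnd
import Pool.Agent.H.MP_353193_lc.SM.Adt

/-!
# Sw: some `B α` has a node without rank

By contradiction: for `α < om (n + 1)` and every node `v` there is `ξ` with `Lose (B α) ξ 0 v`. Start with `s 0 = ⟨0, fun _ => false⟩`, `j 0 α = 0`, ranks `ξ 0 α`.
Round `i`: `round` with `m = n + 2 + i` (invariant `j i α ≤ i`, `s i ∈ T (n + 2 + i)`; `T` increases with `m`). For every `α` the ranks `ξ i α` do not increase with `i`, so they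
are constant from some `i α` on (well-founded). There are `N` and cofinally many `α < om (n + 1)` with `i α ≤ N`: otherwise for every
`N` a bound `b N < om (n + 1)`, the supremum of the `b N` is `< om (n + 1)` (regular uncountable). Let `s'` be the node after the round `N`. `additivity` with
`m = n + 2 + N` at `s'` gives `α` and `u ∈ T m` above `s'` with `Dn (B α) m u`; take `α' ≥ α` with `i α' ≤ N`; `Dn (B α') m u` by `Dn.mono`: contradiction.
-/

set_option autoImplicit false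

open Cardinal Ordinal Set

namespace Pool.Agent.H.MP_353193_lc.SM

/-- the invariant after `i` rounds -/
def Sw_I (n : ℕ) (B : Ordinal.{0} → Set Seq) (i : ℕ)
    (p : Nod × (Ordinal.{0} → Ordinal.{1}) × (Ordinal.{0} → ℕ)) : Prop :=
  p.1 ∈ T (n + 2 + i) ∧ ∀ α, α < om (n + 1) → p.2.2 α ≤ i ∧ Lose (B α) (p.2.1 α) (p.2.2 α) p.1

/-- the relation of two consecutive states -/
def Sw_R (n : ℕ) (B : Ordinal.{0} → Set Seq) (i : ℕ)
    (p q : Nod × (Ordinal.{0} → Ordinal.{1}) × (Ordinal.{0} → ℕ)) : Prop :=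
  q.1 ∈ T (n + 2 + i) ∧ ∀ α, α < om (n + 1) → q.2.1 α ≤ p.2.1 α ∧
    (q.2.1 α = p.2.1 α → ∀ u ∈ T (n + 2 + i), Le q.1 u → ¬ Dn (B α) (n + 2 + i) u)

theorem Sw_step (n : ℕ) (B : Ordinal.{0} → Set Seq) (i : ℕ)
    (p : {p : Nod × (Ordinal.{0} → Ordinal.{1}) × (Ordinal.{0} → ℕ) // Sw_I n B i p}) :
    ∃ q : {q : Nod × (Ordinal.{0} → Ordinal.{1}) × (Ordinal.{0} → ℕ) // Sw_I n B (i + 1) q},
      Sw_R n B i p.1 q.1 := by
  obtain ⟨⟨s, ξ, j⟩, hs, hL⟩ := p
  obtain ⟨s', hs', _, ξ', j', h⟩ := round n (n + 2 + i) (by omega) B ξ j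
    (fun α hα => lt_of_le_of_lt (hL α hα).1 (by omega)) s hs (fun α hα => (hL α hα).2)
  refine ⟨⟨⟨s', ξ', j'⟩, ?_, fun α hα => ⟨?_, (h α hα).1⟩⟩, hs', fun α hα =>
    ⟨(h α hα).2.2.1, (h α hα).2.2.2⟩⟩
  · have h1 : s'.len < om (n + 2 + i) := hs'
    exact h1.trans_le (om_le (by omega))
  · have h1 := (h α hα).2.1
    have h2 := (hL α hα).1
    exact h1.trans (Nat.succ_le_succ h2)

/-- a sequence of ordinals which does not increase is constant from some index on -/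
theorem Sw_const (x : ℕ → Ordinal.{1}) (h : ∀ i, x (i + 1) ≤ x i) :
    ∃ N, ∀ i, N ≤ i → x (i + 1) = x i := by
  have hanti : ∀ i k, i ≤ k → x k ≤ x i := by
    intro i k hik
    induction k, hik using Nat.le_induction with
    | base => exact le_rfl
    | succ k _ ih => exact (h k).trans ih
  obtain ⟨N, hN⟩ : ∃ N, ∀ i, x N ≤ x i := by
    have hne : (Set.range x).Nonempty := ⟨x 0, 0, rfl⟩
    obtain ⟨N, hN⟩ := WellFounded.min_mem (wellFounded_lt (α := Ordinal.{1})) _ hne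
    refine ⟨N, fun i => ?_⟩
    rw [hN]
    exact not_lt.1 (WellFounded.not_lt_min (wellFounded_lt (α := Ordinal.{1})) (Set.range x) ⟨i, rfl⟩)
  refine ⟨N, fun i hi => ?_⟩
  exact le_antisymm (h i) ((hanti N i hi).trans (hN (i + 1)))

/-- countably many ordinals below `om (n + 1)` are bounded -/
theorem Sw_bdd (n : ℕ) (b : ℕ → Ordinal.{0}) (hb : ∀ k, b k < om (n + 1)) :
    ∃ c, c < om (n + 1) ∧ ∀ k, b k ≤ c := by
  classical
  obtain ⟨c, hc, h⟩ := om_sup (k := 0) (m := n + 1) (by omega) (om 0) le_rfl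
    (fun i => if h : ∃ k : ℕ, i = (k : Ordinal.{0}) then b h.choose else 0) (by
      intro i _
      split_ifs with h
      · exact hb _
      · exact om_pos _)
  refine ⟨c, hc, fun k => ?_⟩
  have h1 : (k : Ordinal.{0}) < om 0 := by
    unfold om
    simp
  have h2 := h k h1
  have h3 : ∃ l : ℕ, (k : Ordinal.{0}) = (l : Ordinal.{0}) := ⟨k, rfl⟩
  rw [dif_pos h3] at h2
  have h4 : h3.choose = k := by
    have h5 := h3.choose_spec
    exact (Nat.cast_injective h5).symm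
  rw [h4] at h2
  exact h2

theorem some_win (n : ℕ) (B : Ordinal.{0} → Set Seq) (hmono : ∀ α β, α ≤ β → B α ⊆ B β)
    (hB : ∀ y ∈ R omω, ∃ α, α < om (n + 1) ∧ y ∈ B α) :
    ∃ α, α < om (n + 1) ∧ ∃ v : Nod, ∀ ξ, ¬ Lose (B α) ξ 0 v := by
  classical
  by_contra hcon
  have hL : ∀ α, α < om (n + 1) → ∀ v : Nod, ∃ ξ, Lose (B α) ξ 0 v := by
    intro α hα v
    by_contra h
    push Not at h
    exact hcon ⟨α, hα, v, h⟩
  let s0 : Nod := ⟨0, fun _ => false⟩
  have hex : ∀ α : Ordinal.{0}, ∃ ξ : Ordinal.{1}, α < om (n + 1) → Lose (B α) ξ 0 s0 := by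
    intro α
    by_cases hα : α < om (n + 1)
    · obtain ⟨ξ, hξ⟩ := hL α hα s0
      exact ⟨ξ, fun _ => hξ⟩
    · exact ⟨0, fun h => absurd h hα⟩
  choose ξ0 hξ0 using hex
  have h0 : Sw_I n B 0 ⟨s0, ξ0, fun _ => 0⟩ :=
    ⟨om_pos _, fun α hα => ⟨le_rfl, hξ0 α hα⟩⟩
  choose nx hnx using Sw_step n B
  let f : ∀ i : ℕ, {p : Nod × (Ordinal.{0} → Ordinal.{1}) × (Ordinal.{0} → ℕ) // Sw_I n B i p} :=
    fun i => Nat.rec ⟨_, h0⟩ (fun i p => nx i p) i
  have hf : ∀ i, Sw_R n B i (f i).1 (f (i + 1)).1 := fun i => hnx i (f i)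
  have hia : ∀ α : Ordinal.{0}, ∃ N : ℕ, α < om (n + 1) →
      ∀ i, N ≤ i → (f (i + 1)).1.2.1 α = (f i).1.2.1 α := by
    intro α
    by_cases hα : α < om (n + 1)
    · obtain ⟨N, hN⟩ := Sw_const (fun i => (f i).1.2.1 α) (fun i => ((hf i).2 α hα).1)
      exact ⟨N, fun _ => hN⟩
    · exact ⟨0, fun h => absurd h hα⟩
  choose ia hia using hia
  obtain ⟨N, hN⟩ : ∃ N : ℕ, ∀ β, β < om (n + 1) → ∃ α, β ≤ α ∧ α < om (n + 1) ∧ ia α ≤ N := by
    by_contra hno
    push Not at hno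
    choose b hb1 hb2 using hno
    obtain ⟨c, hc, hbc⟩ := Sw_bdd n b hb1
    exact lt_irrefl _ (hb2 (ia c) c (hbc _) hc)
  obtain ⟨α, hα, u, hu, hsu, hD⟩ := additivity n (n + 2 + N) (by omega) B hB (f (N + 1)).1.1
    (hf N).1
  obtain ⟨α', h1, h2, h3⟩ := hN α hα
  exact ((hf N).2 α' h2).2 (hia α' h2 N h3) u hu hsu (hD.mono (hmono α α' h1))

end Pool.Agent.H.MP_353193_lc.SM
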