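import Pool.Agent.H.MP_353193_lc.SM.PrT
import Pool.Agent.H.MP_353193_lc.SM.LsA

/-!
# WinT: `win_copy` with a map that respects first differences

The map `φ` is that of `win_copy` (Win.lean: copy its proof; its auxiliary definitions `WinP`, `WinW` are private there): `hA` says `φ x ∈ cn (cat (u x k) x (om k) (decide (k < lv x)))` for `k ≤ lv x`,
where `u x k = U k (WinW U v x k)`, and `u x k` depends only on the digits of `x` below `om i`, `i < k`. Let `a k = (u x k).len`; `a k + om k < a (k + 1)` for `k < lv x` (the node `cat (u x k) x (om k) true` of length `a k + om k + 1`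
is below `u x (k + 1)`).
Let `Sp x y δ`. By `sp_cases` there is `k` and either (A) `δ < om k`, `om i ≤ δ` for `i < k`, and `Sp (φ x) (φ y) (a k + δ)` by `sp_catA`; or (B) `k = lv y < lv x` and
`Sp (φ x) (φ y) (a k + om k)` by `sp_catB`. The value `ε` is unique (`Sp.unique`). If `y`, `δ`, `k` and `y'`, `δ'`, `k'` give the same `ε` then `k = k'` (`a k ≤ ε ≤ a k + om k < a (k + 1) ≤ a k' ≤ ε` for
`k < k'`), both are of the same type (A) or (B) (`a k + δ < a k + om k`), and `δ = δ'`: clear in (A); in (B) both are the least `μ ≥ om k` with `x μ = true`.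
-/

set_option autoImplicit false

open Cardinal Ordinal Set

namespace Pool.Agent.H.MP_353193_lc.SM

/-- the conditions on the move of the builder -/
private def WinTP (X : Set Seq) (j : ℕ) (w : Nod) (m : ℕ) (u : Nod) : Prop :=
  j < m ∧ u ∈ T m ∧ Le w u ∧ Dn X m u ∧ ∀ u' ∈ T m, Le u u' → ∀ ξ, ¬ Lose X ξ (j + 1) u'

/-- the nodes of the branch of `x` -/
private noncomputable def WinTW (U : ℕ → Nod → Nod) (v : Nod) (x : Seq) : ℕ → Nod
  | 0 => v
  | j + 1 => cat (U j (WinTW U v x j)) x (om j) true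

private theorem WinTW_congr (U : ℕ → Nod → Nod) (v : Nod) {x y : Seq} :
    ∀ k : ℕ, (∀ i, i < k → ∀ μ, μ < om i → x μ = y μ) → WinTW U v x k = WinTW U v y k := by
  intro k
  induction k with
  | zero => intro _; rfl
  | succ k ih =>
    intro h
    show cat (U k (WinTW U v x k)) x (om k) true = cat (U k (WinTW U v y k)) y (om k) true
    rw [ih fun i hi => h i (hi.trans (Nat.lt_succ_self k))]
    exact cat_congr _ (h k (Nat.lt_succ_self k)) true

theorem win_copyT {X : Set Seq} {v : Nod} (h : ∀ ξ, ¬ Lose X ξ 0 v) : LgT X := by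
  classical
  have hc : ∀ (j : ℕ) (w : Nod), ∃ (m : ℕ) (u : Nod), (∀ ξ, ¬ Lose X ξ j w) → WinTP X j w m u := by
    intro j w
    by_cases hw : ∀ ξ, ¬ Lose X ξ j w
    · obtain ⟨m, hm, u, hu, h1, h2, h3⟩ := not_lose hw
      exact ⟨m, u, fun _ => ⟨hm, hu, h1, h2, h3⟩⟩
    · exact ⟨0, w, fun h1 => absurd h1 hw⟩
  choose M U hU using hc
  have hW : ∀ x : Seq, ∀ j : ℕ, ∀ ξ, ¬ Lose X ξ j (WinTW U v x j) := by
    intro x j
    induction j with
    | zero => exact h
    | succ j ih =>
      obtain ⟨h1, h2, h3, h4, h5⟩ := hU j (WinTW U v x j) ih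
      exact h5 _ (cat_mem_T h1 h2 x true) (cat_le _ x (om j) true)
  have hP : ∀ x : Seq, ∀ j : ℕ, WinTP X j (WinTW U v x j) (M j (WinTW U v x j)) (U j (WinTW U v x j)) :=
    fun x j => hU j _ (hW x j)
  have hex : ∀ x : Seq, ∃ y ∈ R omω, y ∈ X ∧
      y ∈ cn (cat (U (lv x) (WinTW U v x (lv x))) x (om (lv x)) false) := by
    intro x
    obtain ⟨h1, h2, h3, h4, h5⟩ := hP x (lv x)
    exact h4 _ (cat_le _ x (om (lv x)) false) (cat_mem_T h1 h2 x false)
  choose φ hφ1 hφ2 hφ3 using hex
  have hmono : ∀ x : Seq, ∀ i j : ℕ, i ≤ j → Le (WinTW U v x i) (WinTW U v x j) := by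
    intro x i j hij
    induction j, hij using Nat.le_induction with
    | base => exact Le.refl _
    | succ j _ ih =>
      exact ih.trans ((hP x j).2.2.1.trans (cat_le _ x (om j) true))
  have hA : ∀ x : Seq, ∀ k : ℕ, k ≤ lv x →
      φ x ∈ cn (cat (U k (WinTW U v x k)) x (om k) (decide (k < lv x))) := by
    intro x k hk
    rcases hk.eq_or_lt with h1 | h1
    · rw [h1]
      have h2 : decide (lv x < lv x) = false := by simp
      rw [h2]
      exact hφ3 x
    · have h2 : decide (k < lv x) = true := by simpa using h1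
      rw [h2]
      have h3 : Le (WinTW U v x (k + 1)) (WinTW U v x (lv x)) := hmono x (k + 1) (lv x) h1
      have h4 : Le (WinTW U v x (lv x)) (cat (U (lv x) (WinTW U v x (lv x))) x (om (lv x)) false) :=
        (hP x (lv x)).2.2.1.trans (cat_le _ x (om (lv x)) false)
      exact (h3.trans h4).cn_subset (hφ3 x)
  have hEmb : Emb φ X := by
    refine ⟨fun f _ => ⟨hφ1 f, hφ2 f⟩, ?_⟩
    intro x hx y hy hxy
    obtain ⟨k, hkx, hky, h1, h2⟩ := pair hx hy hxy
    have h3 : WinTW U v x k = WinTW U v y k := WinTW_congr U v k h1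
    have h4 := hA x k hkx
    have h5 := hA y k hky
    rw [h3] at h4
    exact cat_sep h2 _ h4 h5
  -- lengths of the nodes
  set a : Seq → ℕ → Ordinal.{0} := fun x k => (U k (WinTW U v x k)).len with ha
  have hstep : ∀ x k, a x k + om k < a x (k + 1) := by
    intro x k
    have h1 : (WinTW U v x (k + 1)).len ≤ a x (k + 1) := (hP x (k + 1)).2.2.1.1
    have h2 : (WinTW U v x (k + 1)).len = a x k + om k + 1 := rfl
    rw [h2] at h1
    exact lt_of_lt_of_le (lt_add_of_pos_right _ zero_lt_one) h1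
  have hamono : ∀ x k k', k < k' → a x k + om k < a x k' := by
    intro x k k' hkk
    induction k', hkk using Nat.le_induction with
    | base => exact hstep x k
    | succ k' _ ih =>
      exact ih.trans (lt_of_le_of_lt (le_add_of_nonneg_right (zero_le)) (hstep x k'))
  -- the value of the first difference
  have hval : ∀ x ∈ R omω, ∀ y ∈ R omω, ∀ δ, Sp x y δ → ∃ k,
      (δ < om k ∧ Sp (φ x) (φ y) (a x k + δ)) ∨
      (om k ≤ δ ∧ x δ = true ∧ (∀ μ, om k ≤ μ → μ < δ → x μ = false) ∧ Sp (φ x) (φ y) (a x k + om k)) := by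
    intro x hx y hy δ hd
    obtain ⟨k, hkx, hky, h1, h2⟩ := sp_cases hx hy hd
    have h3 : WinTW U v x k = WinTW U v y k := WinTW_congr U v k h1
    have h4 := hA x k hkx
    have h5 := hA y k hky
    rw [← h3] at h5
    refine ⟨k, ?_⟩
    rcases h2 with ⟨h6, -⟩ | ⟨h6, h7, h8, h9, h10⟩
    · exact Or.inl ⟨h6, sp_catA hx hy hd hkx h6 _ h4 h5⟩
    · refine Or.inr ⟨h8, h9, h10, ?_⟩
      rw [decide_eq_true h7] at h4
      have h11 : decide (k < lv y) = false := decide_eq_false (by omega)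
      rw [h11] at h5
      exact sp_catB hd h8 _ h4 h5
  refine ⟨φ, hEmb, ?_, ?_⟩
  · intro x hx y hy δ hd
    obtain ⟨k, h1 | h1⟩ := hval x hx y hy δ hd
    · exact ⟨_, h1.2⟩
    · exact ⟨_, h1.2.2.2⟩
  · intro x hx y hy y' hy' δ δ' ε h1 h2 h3 h4
    obtain ⟨k, hk⟩ := hval x hx y hy δ h1
    obtain ⟨k', hk'⟩ := hval x hx y' hy' δ' h2
    -- bounds of the value
    have hb : ∀ (κ : ℕ) (y0 : Seq) (d : Ordinal.{0}), Sp (φ x) (φ y0) ε →
        ((d < om κ ∧ Sp (φ x) (φ y0) (a x κ + d)) ∨
        (om κ ≤ d ∧ x d = true ∧ (∀ μ, om κ ≤ μ → μ < d → x μ = false) ∧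
          Sp (φ x) (φ y0) (a x κ + om κ))) → a x κ ≤ ε ∧ ε ≤ a x κ + om κ := by
      intro κ y0 d h5 h6
      rcases h6 with ⟨h7, h8⟩ | ⟨-, -, -, h8⟩
      · rw [h5.unique h8]
        exact ⟨le_add_of_nonneg_right (zero_le), add_le_add_right h7.le _⟩
      · rw [h5.unique h8]
        exact ⟨le_add_of_nonneg_right (zero_le), le_rfl⟩
    have hb1 := hb k y δ h3 hk
    have hb2 := hb k' y' δ' h4 hk'
    have hkk : k = k' := by
      rcases lt_trichotomy k k' with h5 | h5 | h5
      · exact absurd (lt_of_le_of_lt hb1.2 (hamono x k k' h5)) (not_lt.2 hb2.1)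
      · exact h5
      · exact absurd (lt_of_le_of_lt hb2.2 (hamono x k' k h5)) (not_lt.2 hb1.1)
    subst hkk
    rcases hk with ⟨h5, h6⟩ | ⟨h5, h6, h7, h8⟩
    · rcases hk' with ⟨g5, g6⟩ | ⟨g5, g6, g7, g8⟩
      · have e1 := (h3.unique h6).symm.trans (h4.unique g6)
        exact (add_right_inj _).1 e1
      · have e1 := (h3.unique h6).symm.trans (h4.unique g8)
        exact absurd ((add_right_inj _).1 e1) h5.ne
    · rcases hk' with ⟨g5, g6⟩ | ⟨g5, g6, g7, g8⟩
      · have e1 := (h3.unique h8).symm.trans (h4.unique g6)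
        exact absurd ((add_right_inj _).1 e1) g5.ne'
      · rcases lt_trichotomy δ δ' with h9 | h9 | h9
        · have h10 := g7 δ h5 h9
          rw [h6] at h10
          exact absurd h10 (by decide)
        · exact h9
        · have h10 := h7 δ' g5 h9
          rw [g6] at h10
          exact absurd h10 (by decide)

end Pool.Agent.H.MP_353193_lc.SM
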